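import Pool.Agent.H973R2.Conn

/-!
The number of clusters of a set of edges of the square lattice (the first lemmas are those of
`Pool.Agent.Q291.FK.Clus`, by helper291), and the generating function of the number of defects.
-/

set_option autoImplicit false

namespace Pool.Agent.Q297.FKL

open H974 Finset

/-- The cluster of a vertex. -/
def cl (G : Set Edg) (v : Vtx) : Set Vtx := {w | Reach G v w}

/-- The number of clusters of the graph with the edges `G` which meet `R`. -/
noncomputable def ncl (R : Finset Vtx) (G : Set Edg) : ℕ := Set.ncard (cl G '' (R : Set Vtx))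

theorem cl_eq {G : Set Edg} {u v : Vtx} (h : Reach G u v) : cl G u = cl G v := by
  ext w
  exact ⟨fun h1 => h.symm.trans h1, fun h1 => h.trans h1⟩

theorem cl_eq_iff {G : Set Edg} {u v : Vtx} : cl G u = cl G v ↔ Reach G u v := by
  constructor
  · intro h
    have : v ∈ cl G v := Reach.refl _ _
    rw [← h] at this
    exact this
  · exact cl_eq

theorem ncl_same (R : Finset Vtx) {G : Set Edg} {e : Edg} (h : Reach G (src e) (tgt e)) :
    ncl R (insert e G) = ncl R G := by
  have : ∀ v, cl (insert e G) v = cl G v := by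
    intro v
    ext w
    unfold cl
    simp only [Set.mem_ofPred_eq]
    rw [H973.reach_insert]
    constructor
    · rintro (h1 | ⟨h1, h2⟩ | ⟨h1, h2⟩)
      · exact h1
      · exact (h1.trans h).trans h2
      · exact (h1.trans h.symm).trans h2
    · exact fun h1 => Or.inl h1
  unfold ncl
  congr 1
  exact Set.image_congr fun v _ => this v

theorem ncl_merge {R : Finset Vtx} {G : Set Edg} {e : Edg} (h : ¬ Reach G (src e) (tgt e))
    (hs : src e ∈ R) (ht : tgt e ∈ R) : ncl R G = ncl R (insert e G) + 1 := by
  classical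
  obtain ⟨u, hu⟩ : ∃ u, u = src e := ⟨_, rfl⟩
  obtain ⟨v, hv⟩ : ∃ v, v = tgt e := ⟨_, rfl⟩
  rw [← hu] at hs
  rw [← hv] at ht
  rw [← hu, ← hv] at h
  have hins : ∀ x y, Reach (insert e G) x y ↔ Reach G x y ∨ (Reach G x u ∧ Reach G v y) ∨
      (Reach G x v ∧ Reach G u y) := by
    intro x y
    rw [hu, hv]
    exact H973.reach_insert
  have hc : ∀ x, cl (insert e G) x = if Reach G x u ∨ Reach G x v then cl G u ∪ cl G v
      else cl G x := by
    intro x
    split_ifs with hx
    · ext y
      unfold cl
      simp only [Set.mem_ofPred_eq, Set.mem_union]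
      rw [hins]
      rcases hx with hx | hx
      · constructor
        · rintro (h1 | ⟨h1, h2⟩ | ⟨h1, h2⟩)
          · exact Or.inl (hx.symm.trans h1)
          · exact Or.inr h2
          · exact Or.inl h2
        · rintro (h1 | h1)
          · exact Or.inl (hx.trans h1)
          · exact Or.inr (Or.inl ⟨hx, h1⟩)
      · constructor
        · rintro (h1 | ⟨h1, h2⟩ | ⟨h1, h2⟩)
          · exact Or.inr (hx.symm.trans h1)
          · exact Or.inr h2
          · exact Or.inl h2
        · rintro (h1 | h1)
          · exact Or.inr (Or.inr ⟨hx, h1⟩)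
          · exact Or.inl (hx.trans h1)
    · ext y
      unfold cl
      simp only [Set.mem_ofPred_eq]
      rw [hins]
      constructor
      · rintro (h1 | ⟨h1, h2⟩ | ⟨h1, h2⟩)
        · exact h1
        · exact absurd (Or.inl h1) hx
        · exact absurd (Or.inr h1) hx
      · exact fun h1 => Or.inl h1
  have hfin : (cl G '' (R : Set Vtx)).Finite := R.finite_toSet.image _
  have hset : cl (insert e G) '' (R : Set Vtx) =
      insert (cl G u ∪ cl G v) ((cl G '' (R : Set Vtx)) \ {cl G u, cl G v}) := by
    ext C
    simp only [Set.mem_image, Set.mem_insert_iff, Set.mem_sdiff, Set.mem_singleton_iff]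
    constructor
    · rintro ⟨x, hx, rfl⟩
      rw [hc x]
      split_ifs with h1
      · exact Or.inl rfl
      · right
        refine ⟨⟨x, hx, rfl⟩, ?_⟩
        rintro (h2 | h2)
        · exact h1 (Or.inl (cl_eq_iff.mp h2))
        · exact h1 (Or.inr (cl_eq_iff.mp h2))
    · rintro (rfl | ⟨⟨x, hx, rfl⟩, h1⟩)
      · refine ⟨u, hs, ?_⟩
        rw [hc u, if_pos (Or.inl (Reach.refl _ _))]
      · refine ⟨x, hx, ?_⟩
        rw [hc x, if_neg]
        rintro (h2 | h2)
        · exact h1 (Or.inl (cl_eq h2))
        · exact h1 (Or.inr (cl_eq h2))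
  have hne : cl G u ≠ cl G v := fun h1 => h (cl_eq_iff.mp h1)
  have hnot : (cl G u ∪ cl G v) ∉ ((cl G '' (R : Set Vtx)) \ {cl G u, cl G v}) := by
    rintro ⟨⟨x, _, hx⟩, h1⟩
    simp only [Set.mem_insert_iff, Set.mem_singleton_iff] at h1
    apply h1
    left
    have hxu : u ∈ cl G x := by rw [hx]; exact Or.inl (Reach.refl _ _)
    rw [← hx]
    exact cl_eq hxu
  unfold ncl
  rw [hset, Set.ncard_insert_of_notMem hnot (hfin.subset Set.sdiff_subset)]
  have hsub : ({cl G u, cl G v} : Set (Set Vtx)) ⊆ cl G '' (R : Set Vtx) := by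
    rintro C (rfl | rfl)
    · exact ⟨u, hs, rfl⟩
    · exact ⟨v, ht, rfl⟩
  have h2 := Set.ncard_sdiff_add_ncard_of_subset hsub hfin
  rw [Set.ncard_pair hne] at h2
  omega

theorem ncl_anti (R : Finset Vtx) {G G' : Set Edg} (h : G ⊆ G') : ncl R G' ≤ ncl R G := by
  classical
  have hfin : (cl G '' (R : Set Vtx)).Finite := R.finite_toSet.image _
  have : cl G' '' (R : Set Vtx) = (fun C : Set Vtx => {w | ∃ u ∈ C, Reach G' u w}) ''
      (cl G '' (R : Set Vtx)) := by
    rw [Set.image_image]
    apply Set.image_congr
    intro v _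
    ext w
    unfold cl
    simp only [Set.mem_ofPred_eq]
    constructor
    · intro h1
      exact ⟨v, Reach.refl _ _, h1⟩
    · rintro ⟨u, hu, h1⟩
      exact (hu.mono h).trans h1
  unfold ncl
  rw [this]
  exact Set.ncard_image_le hfin

/-- Both ends of the edges of `F` are in `R`. -/
def Ends (R : Finset Vtx) (F : Finset Edg) : Prop := ∀ e ∈ F, src e ∈ R ∧ tgt e ∈ R

theorem ncl_insert_ge {R : Finset Vtx} {G : Set Edg} {e : Edg} (hs : src e ∈ R) (ht : tgt e ∈ R) :
    ncl R G ≤ ncl R (insert e G) + 1 := by
  by_cases h : Reach G (src e) (tgt e)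
  · rw [ncl_same R h]; omega
  · rw [ncl_merge h hs ht]

theorem union_insert_coe (F : Finset Edg) (e : Edg) (W : Set Edg) :
    (↑(insert e F) ∪ W : Set Edg) = insert e (↑F ∪ W) := by
  rw [Finset.coe_insert, Set.insert_union]

theorem ncl_union_ge {R : Finset Vtx} (F : Finset Edg) (hF : Ends R F) (G : Set Edg) :
    ncl R G ≤ ncl R (↑F ∪ G) + F.card := by
  classical
  induction F using Finset.induction_on with
  | empty => simp
  | insert e F he ih =>
    have h1 := ih (fun f hf => hF f (Finset.mem_insert_of_mem hf))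
    have h2 := hF e (Finset.mem_insert_self e F)
    rw [union_insert_coe, Finset.card_insert_of_notMem he]
    have h3 := ncl_insert_ge (G := ↑F ∪ G) h2.1 h2.2
    omega

/-- A subset of `F` which makes the same connections without cycles. -/
theorem greedy {R : Finset Vtx} (F : Finset Edg) (hF : Ends R F) (G : Set Edg) :
    ∃ D ⊆ F, ncl R (↑D ∪ G) + D.card = ncl R G ∧
      ∀ x y, Reach (↑F ∪ G) x y → Reach (↑D ∪ G) x y := by
  classical
  induction F using Finset.induction_on with
  | empty => exact ⟨∅, subset_rfl, by simp, fun x y h => h⟩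
  | insert e F he ih =>
    obtain ⟨D, hD, h1, h2⟩ := ih (fun f hf => hF f (Finset.mem_insert_of_mem hf))
    have h3 := hF e (Finset.mem_insert_self e F)
    by_cases h : Reach (↑D ∪ G) (src e) (tgt e)
    · refine ⟨D, hD.trans (Finset.subset_insert _ _), h1, fun x y hxy => ?_⟩
      rw [union_insert_coe, H973.reach_insert] at hxy
      rcases hxy with hxy | ⟨ha, hb⟩ | ⟨ha, hb⟩
      · exact h2 _ _ hxy
      · exact ((h2 _ _ ha).trans h).trans (h2 _ _ hb)
      · exact ((h2 _ _ ha).trans h.symm).trans (h2 _ _ hb)
    · refine ⟨insert e D, Finset.insert_subset_insert _ hD, ?_, fun x y hxy => ?_⟩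
      · rw [union_insert_coe, Finset.card_insert_of_notMem (fun hh => he (hD hh))]
        have h4 := ncl_merge h h3.1 h3.2
        omega
      · rw [union_insert_coe, H973.reach_insert] at hxy ⊢
        rcases hxy with hxy | ⟨ha, hb⟩ | ⟨ha, hb⟩
        · exact Or.inl (h2 _ _ hxy)
        · exact Or.inr (Or.inl ⟨h2 _ _ ha, h2 _ _ hb⟩)
        · exact Or.inr (Or.inr ⟨h2 _ _ ha, h2 _ _ hb⟩)

/-- Number of defects of `F` inside `S`, with the edges `W` contracted: number of independent
cycles plus number of missing connections. -/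
noncomputable def ex (R : Finset Vtx) (W : Set Edg) (S F : Finset Edg) : ℕ :=
  (F.card + ncl R (↑F ∪ W) - ncl R W) + (ncl R (↑F ∪ W) - ncl R (↑S ∪ W))

/-- Generating function of the number of defects. -/
noncomputable def Z (R : Finset Vtx) (W : Set Edg) (S : Finset Edg) (u : ℝ) : ℝ :=
  ∑ F ∈ S.powerset, u ^ ex R W S F

theorem Z_nonneg (R : Finset Vtx) (W : Set Edg) (S : Finset Edg) {u : ℝ} (hu : 0 ≤ u) :
    0 ≤ Z R W S u := Finset.sum_nonneg fun _ _ => pow_nonneg hu _

theorem Z_insert {R : Finset Vtx} {W : Set Edg} {S : Finset Edg} {e : Edg} (he : e ∉ S)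
    (hS : Ends R (insert e S)) :
    (∀ u, Z R W (insert e S) u = (1 + u) * Z R W S u) ∨
      ∀ u, Z R W (insert e S) u = Z R W S u + Z R (insert e W) S u := by
  classical
  have hE := hS e (Finset.mem_insert_self e S)
  have hS' : Ends R S := fun f hf => hS f (Finset.mem_insert_of_mem hf)
  have hge : ∀ F ∈ S.powerset, ncl R W ≤ ncl R (↑F ∪ W) + F.card := by
    intro F hF
    exact ncl_union_ge F (fun f hf => hS' f (Finset.mem_powerset.mp hF hf)) W
  have hle : ∀ F ∈ S.powerset, ncl R (↑S ∪ W) ≤ ncl R (↑F ∪ W) := by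
    intro F hF
    apply ncl_anti
    exact Set.union_subset_union_left _ (by exact_mod_cast Finset.mem_powerset.mp hF)
  have hsum : ∀ u, Z R W (insert e S) u = ∑ F ∈ S.powerset, (u ^ ex R W (insert e S) F +
      u ^ ex R W (insert e S) (insert e F)) := by
    intro u
    unfold Z
    rw [Finset.sum_powerset_insert he, ← Finset.sum_add_distrib]
  have hcard : ∀ F ∈ S.powerset, (insert e F).card = F.card + 1 := by
    intro F hF
    exact Finset.card_insert_of_notMem fun hh => he (Finset.mem_powerset.mp hF hh)
  by_cases h1 : Reach W (src e) (tgt e)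
  · left
    intro u
    rw [hsum]
    unfold Z
    rw [Finset.mul_sum]
    apply Finset.sum_congr rfl
    intro F hF
    have a1 : ncl R (↑(insert e S) ∪ W) = ncl R (↑S ∪ W) := by
      rw [union_insert_coe]
      exact ncl_same R (h1.mono Set.subset_union_right)
    have a2 : ncl R (↑(insert e F) ∪ W) = ncl R (↑F ∪ W) := by
      rw [union_insert_coe]
      exact ncl_same R (h1.mono Set.subset_union_right)
    have e1 : ex R W (insert e S) F = ex R W S F := by
      unfold ex; rw [a1]
    have e2 : ex R W (insert e S) (insert e F) = ex R W S F + 1 := by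
      unfold ex
      rw [a1, a2, hcard F hF]
      have := hge F hF
      omega
    rw [e1, e2]
    ring
  · by_cases h2 : Reach (↑S ∪ W) (src e) (tgt e)
    · right
      intro u
      rw [hsum]
      unfold Z
      rw [← Finset.sum_add_distrib]
      apply Finset.sum_congr rfl
      intro F hF
      have a1 : ncl R (↑(insert e S) ∪ W) = ncl R (↑S ∪ W) := by
        rw [union_insert_coe]
        exact ncl_same R h2
      have a3 : ncl R W = ncl R (insert e W) + 1 := ncl_merge h1 hE.1 hE.2
      have a4 : (↑(insert e F) ∪ W : Set Edg) = ↑F ∪ insert e W := by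
        rw [union_insert_coe, Set.union_insert]
      have a5 : (↑(insert e S) ∪ W : Set Edg) = ↑S ∪ insert e W := by
        rw [union_insert_coe, Set.union_insert]
      have e1 : ex R W (insert e S) F = ex R W S F := by
        unfold ex; rw [a1]
      have e2 : ex R W (insert e S) (insert e F) = ex R (insert e W) S F := by
        unfold ex
        rw [a4, a5, hcard F hF, a3]
        have := hge F hF
        omega
      rw [e1, e2]
    · left
      intro u
      rw [hsum]
      unfold Z
      rw [Finset.mul_sum]
      apply Finset.sum_congr rfl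
      intro F hF
      have hn : ¬ Reach (↑F ∪ W) (src e) (tgt e) := fun hh => h2 (hh.mono
        (Set.union_subset_union_left _ (by exact_mod_cast Finset.mem_powerset.mp hF)))
      have a1 : ncl R (↑S ∪ W) = ncl R (↑(insert e S) ∪ W) + 1 := by
        rw [union_insert_coe]
        exact ncl_merge h2 hE.1 hE.2
      have a2 : ncl R (↑F ∪ W) = ncl R (↑(insert e F) ∪ W) + 1 := by
        rw [union_insert_coe]
        exact ncl_merge hn hE.1 hE.2
      have h3 := hge F hF
      have h4 := hle F hF
      have e1 : ex R W (insert e S) F = ex R W S F + 1 := by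
        unfold ex
        omega
      have e2 : ex R W (insert e S) (insert e F) = ex R W S F := by
        unfold ex
        rw [hcard F hF]
        omega
      rw [e1, e2]
      ring

/-- `Z(u) / (1 + u)^|S|` is nonincreasing. -/
theorem Z_anti {R : Finset Vtx} (S : Finset Edg) (hS : Ends R S) (W : Set Edg) {u v : ℝ}
    (hu : 0 ≤ u) (huv : u ≤ v) :
    Z R W S v * (1 + u) ^ S.card ≤ Z R W S u * (1 + v) ^ S.card := by
  classical
  induction S using Finset.induction_on generalizing W with
  | empty => simp [Z, ex]
  | insert e S he ih =>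
    have hS' : Ends R S := fun f hf => hS f (Finset.mem_insert_of_mem hf)
    have hv : 0 ≤ v := hu.trans huv
    rw [Finset.card_insert_of_notMem he]
    have hcase : (Z R W (insert e S) u = (1 + u) * Z R W S u ∧
        Z R W (insert e S) v = (1 + v) * Z R W S v) ∨
        (Z R W (insert e S) u = Z R W S u + Z R (insert e W) S u ∧
        Z R W (insert e S) v = Z R W S v + Z R (insert e W) S v) := by
      rcases Z_insert (W := W) he hS with h | h
      · exact Or.inl ⟨h u, h v⟩
      · exact Or.inr ⟨h u, h v⟩
    rcases hcase with ⟨h1, h2⟩ | ⟨h1, h2⟩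
    · rw [h1, h2]
      have := ih hS' W
      calc (1 + v) * Z R W S v * (1 + u) ^ (S.card + 1)
          = (1 + v) * (1 + u) * (Z R W S v * (1 + u) ^ S.card) := by ring
        _ ≤ (1 + v) * (1 + u) * (Z R W S u * (1 + v) ^ S.card) := by gcongr
        _ = _ := by ring
    · rw [h1, h2]
      have i1 := ih hS' W
      have i2 := ih hS' (insert e W)
      have k1 := Z_nonneg R W S hu
      have k2 := Z_nonneg R (insert e W) S hu
      calc (Z R W S v + Z R (insert e W) S v) * (1 + u) ^ (S.card + 1)
          = (1 + u) * (Z R W S v * (1 + u) ^ S.card + Z R (insert e W) S v * (1 + u) ^ S.card) := by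
            ring
        _ ≤ (1 + u) * (Z R W S u * (1 + v) ^ S.card + Z R (insert e W) S u * (1 + v) ^ S.card) := by
            gcongr
        _ ≤ (1 + v) * (Z R W S u * (1 + v) ^ S.card + Z R (insert e W) S u * (1 + v) ^ S.card) := by
            gcongr
        _ = _ := by ring

end Pool.Agent.Q297.FKL
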