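import Pool.Agent.Q297.FKL.Cl

/-!
The critical random-cluster model on a lattice rectangle whose left and lower sides are wired.
-/

set_option autoImplicit false

namespace Pool.Agent.Q297.FKL

open H974 Finset

/-- The vertices `(x, y)` with `0 ≤ x ≤ m` and `0 ≤ y ≤ n`. -/
noncomputable def verts (m n : ℕ) : Finset Vtx := Finset.Icc 0 (m : ℤ) ×ˢ Finset.Icc 0 (n : ℤ)

/-- The edges of the lower side and of the left side (they are open). -/
def wired (m n : ℕ) : Set Edg :=
  {e | (e.2.2 = true ∧ e.2.1 = 0 ∧ 0 ≤ e.1 ∧ e.1 < m) ∨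
    (e.2.2 = false ∧ e.1 = 0 ∧ 0 ≤ e.2.1 ∧ e.2.1 < n)}

/-- The other edges between these vertices (they are random). -/
noncomputable def edges (m n : ℕ) : Finset Edg :=
  (Finset.Ico 0 (m : ℤ) ×ˢ Finset.Icc 1 (n : ℤ)).image (fun p => (p.1, p.2, true)) ∪
    (Finset.Icc 1 (m : ℤ) ×ˢ Finset.Ico 0 (n : ℤ)).image (fun p => (p.1, p.2, false))

/-- The number of clusters if `F` is the set of the random edges which are open; the wired sides
are in one cluster. -/
noncomputable def clusters (m n : ℕ) (F : Finset Edg) : ℕ := ncl (verts m n) (↑F ∪ wired m n)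

/-- The weight `x^b q^k` at the critical value `x = √q`. -/
noncomputable def weight (m n : ℕ) (q : ℝ) (F : Finset Edg) : ℝ :=
  Real.sqrt q ^ F.card * q ^ clusters m n F

/-- The probability of the configuration `F`. -/
noncomputable def fk (m n : ℕ) (q : ℝ) (F : Finset Edg) : ℝ :=
  weight m n q F / ∑ G ∈ (edges m n).powerset, weight m n q G

open Classical in
/-- The probability of an event. -/
noncomputable def pr (m n : ℕ) (q : ℝ) (A : Finset Edg → Prop) : ℝ :=
  ∑ F ∈ (edges m n).powerset with A F, fk m n q F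

/-- The number of independent cycles (edges plus clusters minus the number of clusters without
random edges) plus the number of clusters different from the wired one. By Euler's formula this is
the number of closed loops in the loop picture of the configuration. -/
noncomputable def loops (m n : ℕ) (F : Finset Edg) : ℕ :=
  (F.card + clusters m n F - clusters m n ∅) + (clusters m n F - 1)

/-- All vertices are connected to the wired sides. -/
def Spans (m n : ℕ) (F : Finset Edg) : Prop :=
  ∀ v ∈ verts m n, Reach (↑F ∪ wired m n) (0, 0) v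

/-- A spanning tree (the wired sides are one vertex): a minimal connected configuration. -/
def IsTree (m n : ℕ) (F : Finset Edg) : Prop :=
  Spans m n F ∧ ∀ e ∈ F, ¬ Spans m n (F.erase e)

open Classical in
/-- The uniform spanning tree. -/
noncomputable def ust (m n : ℕ) (F : Finset Edg) : ℝ :=
  if IsTree m n F then 1 / ((edges m n).powerset.filter (IsTree m n)).card else 0

/-- The total variation distance between the critical random-cluster model and the uniform
spanning tree. -/
noncomputable def tv (m n : ℕ) (q : ℝ) : ℝ :=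
  (1 / 2) * ∑ F ∈ (edges m n).powerset, |fk m n q F - ust m n F|

theorem mem_edges {m n : ℕ} {x y : ℤ} {b : Bool} : (x, y, b) ∈ edges m n ↔
    (b = true ∧ 0 ≤ x ∧ x < m ∧ 1 ≤ y ∧ y ≤ n) ∨ (b = false ∧ 1 ≤ x ∧ x ≤ m ∧ 0 ≤ y ∧ y < n) := by
  unfold edges
  simp only [Finset.mem_union, Finset.mem_image, Finset.mem_product, Finset.mem_Ico,
    Finset.mem_Icc, Prod.mk.injEq, Prod.exists]
  constructor
  · rintro (⟨a, c, h, rfl, rfl, rfl⟩ | ⟨a, c, h, rfl, rfl, rfl⟩)
    · left; exact ⟨rfl, h.1.1, h.1.2, h.2.1, h.2.2⟩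
    · right; exact ⟨rfl, h.1.1, h.1.2, h.2.1, h.2.2⟩
  · rintro (⟨rfl, h⟩ | ⟨rfl, h⟩)
    · left; exact ⟨x, y, ⟨⟨h.1, h.2.1⟩, h.2.2.1, h.2.2.2⟩, rfl, rfl, rfl⟩
    · right; exact ⟨x, y, ⟨⟨h.1, h.2.1⟩, h.2.2.1, h.2.2.2⟩, rfl, rfl, rfl⟩

theorem mem_wired {m n : ℕ} {x y : ℤ} {b : Bool} : (x, y, b) ∈ wired m n ↔
    (b = true ∧ y = 0 ∧ 0 ≤ x ∧ x < m) ∨ (b = false ∧ x = 0 ∧ 0 ≤ y ∧ y < n) := Iff.rfl

theorem mem_verts {m n : ℕ} {v : Vtx} : v ∈ verts m n ↔
    0 ≤ v.1 ∧ v.1 ≤ m ∧ 0 ≤ v.2 ∧ v.2 ≤ n := by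
  unfold verts
  rw [Finset.mem_product, Finset.mem_Icc, Finset.mem_Icc]
  tauto

theorem ends_edges (m n : ℕ) : Ends (verts m n) (edges m n) := by
  rintro ⟨x, y, b⟩ he
  rw [mem_edges] at he
  cases b
  · simp only [src_mk, tgt_false, mem_verts]
    simp only [Bool.false_eq_true, false_and, false_or, true_and] at he
    omega
  · simp only [src_mk, tgt_true, mem_verts]
    simp only [true_and, Bool.true_eq_false, false_and, or_false] at he
    omega

theorem ends_sub {m n : ℕ} {F : Finset Edg} (hF : F ⊆ edges m n) : Ends (verts m n) F :=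
  fun e he => ends_edges m n e (hF he)

/-- One step to the left and one step down are always possible. -/
theorem step_left {m n : ℕ} {x y : ℤ} (hx : 0 ≤ x) (hxm : x < m) (hy : 0 ≤ y) (hyn : y ≤ n) :
    (x, y, true) ∈ (↑(edges m n) ∪ wired m n : Set Edg) := by
  rcases eq_or_lt_of_le hy with h | h
  · right
    rw [mem_wired]
    left
    exact ⟨rfl, h.symm, hx, hxm⟩
  · left
    rw [Finset.mem_coe, mem_edges]
    left
    exact ⟨rfl, hx, hxm, h, hyn⟩

theorem step_down {m n : ℕ} {x y : ℤ} (hx : 0 ≤ x) (hxm : x ≤ m) (hy : 0 ≤ y) (hyn : y < n) :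
    (x, y, false) ∈ (↑(edges m n) ∪ wired m n : Set Edg) := by
  rcases eq_or_lt_of_le hx with h | h
  · right
    rw [mem_wired]
    right
    exact ⟨rfl, h.symm, hy, hyn⟩
  · left
    rw [Finset.mem_coe, mem_edges]
    right
    exact ⟨rfl, h, hxm, hy, hyn⟩

theorem spans_edges (m n : ℕ) : Spans m n (edges m n) := by
  have hx : ∀ x : ℕ, x ≤ m → Reach (↑(edges m n) ∪ wired m n) (0, 0) ((x : ℤ), 0) := by
    intro x
    induction x with
    | zero => intro _; exact Reach.refl _ _
    | succ x ih =>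
      intro h
      refine (ih (by omega)).trans ?_
      apply Adj.reach
      refine ⟨((x : ℤ), 0, true), step_left (by omega) (by omega) le_rfl (by omega), Or.inl ⟨?_, ?_⟩⟩
      · simp
      · simp
  have hy : ∀ (x : ℕ), x ≤ m → ∀ y : ℕ, y ≤ n →
      Reach (↑(edges m n) ∪ wired m n) (0, 0) ((x : ℤ), (y : ℤ)) := by
    intro x hxm y
    induction y with
    | zero => intro _; exact_mod_cast hx x hxm
    | succ y ih =>
      intro h
      refine (ih (by omega)).trans ?_
      apply Adj.reach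
      refine ⟨((x : ℤ), (y : ℤ), false), step_down (by omega) (by omega) (by omega) (by omega),
        Or.inl ⟨?_, ?_⟩⟩
      · simp
      · simp
  intro v hv
  rw [mem_verts] at hv
  obtain ⟨h1, h2, h3, h4⟩ := hv
  obtain ⟨a, ha⟩ := Int.eq_ofNat_of_zero_le h1
  obtain ⟨b, hb⟩ := Int.eq_ofNat_of_zero_le h3
  have : v = ((a : ℤ), (b : ℤ)) := Prod.ext ha hb
  rw [this]
  exact hy a (by omega) b (by omega)

theorem zero_mem (m n : ℕ) : ((0, 0) : Vtx) ∈ verts m n := by
  rw [mem_verts]
  simp

theorem spans_iff {m n : ℕ} {F : Finset Edg} : Spans m n F ↔ clusters m n F = 1 := by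
  unfold clusters ncl Spans
  rw [Set.ncard_eq_one]
  constructor
  · intro h
    refine ⟨cl (↑F ∪ wired m n) (0, 0), ?_⟩
    ext C
    simp only [Set.mem_image, Set.mem_singleton_iff]
    constructor
    · rintro ⟨v, hv, rfl⟩
      exact (cl_eq (h v hv)).symm
    · rintro rfl
      exact ⟨_, zero_mem m n, rfl⟩
  · rintro ⟨C, hC⟩ v hv
    have h1 : cl (↑F ∪ wired m n) v ∈ ({C} : Set (Set Vtx)) := by
      rw [← hC]; exact ⟨v, hv, rfl⟩
    have h2 : cl (↑F ∪ wired m n) (0, 0) ∈ ({C} : Set (Set Vtx)) := by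
      rw [← hC]; exact ⟨_, zero_mem m n, rfl⟩
    rw [Set.mem_singleton_iff] at h1 h2
    exact cl_eq_iff.mp (h2.trans h1.symm)

theorem clusters_edges (m n : ℕ) : clusters m n (edges m n) = 1 := spans_iff.mp (spans_edges m n)

theorem one_le_clusters (m n : ℕ) (F : Finset Edg) : 1 ≤ clusters m n F := by
  unfold clusters ncl
  rw [Nat.one_le_iff_ne_zero]
  intro h
  rw [Set.ncard_eq_zero ((verts m n).finite_toSet.image _)] at h
  have : cl (↑F ∪ wired m n) (0, 0) ∈ cl (↑F ∪ wired m n) '' (verts m n : Set Vtx) :=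
    ⟨_, zero_mem m n, rfl⟩
  rw [h] at this
  exact this

theorem clusters_empty_le {m n : ℕ} {F : Finset Edg} (hF : F ⊆ edges m n) :
    clusters m n ∅ ≤ clusters m n F + F.card := by
  have := ncl_union_ge F (ends_sub hF) (wired m n)
  unfold clusters
  simpa using this

theorem ex_eq (m n : ℕ) (F : Finset Edg) :
    ex (verts m n) (wired m n) (edges m n) F = loops m n F := by
  have h1 : ncl (verts m n) (wired m n) = clusters m n ∅ := by
    unfold clusters; simp
  have h2 : ncl (verts m n) (↑(edges m n) ∪ wired m n) = 1 := clusters_edges m n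
  unfold ex loops
  rw [h1, h2]
  rfl

theorem expo {m n : ℕ} {F : Finset Edg} (hF : F ⊆ edges m n) :
    F.card + 2 * clusters m n F = loops m n F + (clusters m n ∅ + 1) := by
  have h1 := one_le_clusters m n F
  have h2 := clusters_empty_le hF
  unfold loops
  omega

theorem isTree_iff {m n : ℕ} {F : Finset Edg} (hF : F ⊆ edges m n) :
    IsTree m n F ↔ loops m n F = 0 := by
  classical
  have h2 := clusters_empty_le hF
  have h1 := one_le_clusters m n F
  constructor
  · rintro ⟨hs, hm⟩
    obtain ⟨D, hD, h3, h4⟩ := greedy F (ends_sub hF) (wired m n)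
    have h5 : D = F := by
      by_contra hne
      obtain ⟨e, he, heD⟩ : ∃ e ∈ F, e ∉ D := by
        by_contra hh
        push Not at hh
        exact hne (Finset.Subset.antisymm hD hh)
      apply hm e he
      intro v hv
      refine (h4 _ _ (hs v hv)).mono ?_
      apply Set.union_subset_union_left
      intro f hf
      rw [Finset.mem_coe] at hf ⊢
      rw [Finset.mem_erase]
      exact ⟨fun h => heD (h ▸ hf), hD hf⟩
    rw [h5] at h3
    have h6 : clusters m n F + F.card = clusters m n ∅ := by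
      unfold clusters; simpa using h3
    have h7 := spans_iff.mp hs
    unfold loops
    omega
  · intro h
    unfold loops at h
    have h7 : clusters m n F = 1 := by omega
    refine ⟨spans_iff.mpr h7, fun e he hse => ?_⟩
    have h8 := spans_iff.mp hse
    have h9 := clusters_empty_le (m := m) (n := n) ((Finset.erase_subset e F).trans hF)
    rw [Finset.card_erase_of_mem he] at h9
    have : 0 < F.card := Finset.card_pos.mpr ⟨e, he⟩
    omega

theorem weight_eq {m n : ℕ} {q : ℝ} (hq : 0 < q) {F : Finset Edg} (hF : F ⊆ edges m n) :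
    weight m n q F = Real.sqrt q ^ loops m n F * Real.sqrt q ^ (clusters m n ∅ + 1) := by
  unfold weight
  have h1 : q = Real.sqrt q ^ 2 := (Real.sq_sqrt hq.le).symm
  have h2 : q ^ clusters m n F = Real.sqrt q ^ (2 * clusters m n F) := by
    conv_lhs => rw [h1]
    rw [← pow_mul]
  rw [h2, ← pow_add, ← pow_add, expo hF]

/-- The generating function of the number of closed loops. -/
noncomputable def ZZ (m n : ℕ) (u : ℝ) : ℝ := ∑ F ∈ (edges m n).powerset, u ^ loops m n F

theorem ZZ_eq (m n : ℕ) (u : ℝ) : ZZ m n u = Z (verts m n) (wired m n) (edges m n) u := by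
  unfold ZZ Z
  exact Finset.sum_congr rfl fun _ _ => by rw [ex_eq]

theorem ZZ_anti (m n : ℕ) {u v : ℝ} (hu : 0 ≤ u) (huv : u ≤ v) :
    ZZ m n v * (1 + u) ^ (edges m n).card ≤ ZZ m n u * (1 + v) ^ (edges m n).card := by
  rw [ZZ_eq, ZZ_eq]
  exact Z_anti _ (ends_edges m n) _ hu huv

theorem ZZ_pos (m n : ℕ) {u : ℝ} (hu : 0 < u) : 0 < ZZ m n u :=
  Finset.sum_pos (fun F _ => pow_pos hu _) ⟨∅, Finset.mem_powerset.mpr (Finset.empty_subset _)⟩

theorem fk_eq {m n : ℕ} {q : ℝ} (hq : 0 < q) {F : Finset Edg} (hF : F ⊆ edges m n) :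
    fk m n q F = Real.sqrt q ^ loops m n F / ZZ m n (Real.sqrt q) := by
  have hs := Real.sqrt_pos.mpr hq
  unfold fk
  have h1 : ∑ G ∈ (edges m n).powerset, weight m n q G =
      ZZ m n (Real.sqrt q) * Real.sqrt q ^ (clusters m n ∅ + 1) := by
    unfold ZZ
    rw [Finset.sum_mul]
    exact Finset.sum_congr rfl fun G hG => weight_eq hq (Finset.mem_powerset.mp hG)
  rw [h1, weight_eq hq hF, mul_div_mul_right _ _ (pow_pos hs _).ne']

theorem fk_nonneg {m n : ℕ} {q : ℝ} (hq : 0 < q) {F : Finset Edg} (hF : F ⊆ edges m n) :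
    0 ≤ fk m n q F := by
  rw [fk_eq hq hF]
  have := ZZ_pos m n (Real.sqrt_pos.mpr hq)
  positivity

theorem fk_sum (m n : ℕ) {q : ℝ} (hq : 0 < q) : ∑ F ∈ (edges m n).powerset, fk m n q F = 1 := by
  have h := ZZ_pos m n (Real.sqrt_pos.mpr hq)
  rw [Finset.sum_congr rfl fun F hF => fk_eq hq (Finset.mem_powerset.mp hF), ← Finset.sum_div]
  exact div_self h.ne'

/-- The mean of `s ^ loops`. -/
theorem gen {m n : ℕ} {q : ℝ} (hq : 0 < q) (s : ℝ) :
    ∑ F ∈ (edges m n).powerset, fk m n q F * s ^ loops m n F =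
      ZZ m n (Real.sqrt q * s) / ZZ m n (Real.sqrt q) := by
  unfold ZZ
  rw [Finset.sum_div]
  apply Finset.sum_congr rfl
  intro F hF
  rw [fk_eq hq (Finset.mem_powerset.mp hF), mul_pow]
  unfold ZZ
  ring

theorem card_edges (m n : ℕ) : (edges m n).card = 2 * (m * n) := by
  unfold edges
  rw [Finset.card_union_of_disjoint, Finset.card_image_of_injective, Finset.card_image_of_injective,
    Finset.card_product, Finset.card_product]
  · simp only [Int.card_Ico, Int.card_Icc]
    have h1 : ((m : ℤ) - 0).toNat = m := by omega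
    have h2 : ((n : ℤ) + 1 - 1).toNat = n := by omega
    have h3 : ((m : ℤ) + 1 - 1).toNat = m := by omega
    have h4 : ((n : ℤ) - 0).toNat = n := by omega
    rw [h1, h2, h3, h4]
    ring
  · intro a b h
    simp only [Prod.mk.injEq, and_true] at h
    exact Prod.ext h.1 h.2
  · intro a b h
    simp only [Prod.mk.injEq, and_true] at h
    exact Prod.ext h.1 h.2
  · rw [Finset.disjoint_left]
    intro e h1 h2
    rw [Finset.mem_image] at h1 h2
    obtain ⟨a, _, rfl⟩ := h1
    obtain ⟨b, _, h⟩ := h2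
    simp at h

end Pool.Agent.Q297.FKL
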