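import Pool.Agent.Q297.FKL.Gad

/-!
The number of closed loops of the critical random-cluster model.
-/

set_option autoImplicit false

namespace Pool.Agent.Q297.FKL

open H974 Finset Filter Topology

/-- The mean number of closed loops. -/
noncomputable def mean (m n : ℕ) (q : ℝ) : ℝ :=
  ∑ F ∈ (edges m n).powerset, fk m n q F * loops m n F

theorem exists_tree (m n : ℕ) : ∃ F ⊆ edges m n, loops m n F = 0 := by
  obtain ⟨D, hD, h1, h2⟩ := greedy (edges m n) (ends_edges m n) (wired m n)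
  refine ⟨D, hD, ?_⟩
  have h3 : clusters m n D = 1 := by
    rw [← spans_iff]
    intro v hv
    exact h2 _ _ (spans_edges m n v hv)
  have h4 : clusters m n D + D.card = clusters m n ∅ := by
    unfold clusters; simpa using h1
  unfold loops
  omega

theorem ZZ_zero_pos (m n : ℕ) : 1 ≤ ZZ m n 0 := by
  obtain ⟨F, hF, h⟩ := exists_tree m n
  unfold ZZ
  calc (1 : ℝ) = 0 ^ loops m n F := by rw [h, pow_zero]
    _ ≤ _ := Finset.single_le_sum (f := fun F => (0 : ℝ) ^ loops m n F)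
      (fun _ _ => pow_nonneg le_rfl _) (Finset.mem_powerset.mpr hF)

theorem ZZ_mono (m n : ℕ) {u v : ℝ} (hu : 0 ≤ u) (huv : u ≤ v) : ZZ m n u ≤ ZZ m n v :=
  Finset.sum_le_sum fun _ _ => pow_le_pow_left₀ hu huv _

theorem pr_zero (m n : ℕ) {q : ℝ} (hq : 0 < q) :
    pr m n q (fun F => loops m n F = 0) = ZZ m n 0 / ZZ m n (Real.sqrt q) := by
  classical
  have h := gen (m := m) (n := n) hq 0
  rw [mul_zero] at h
  rw [← h]
  unfold pr
  rw [Finset.sum_filter]
  apply Finset.sum_congr rfl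
  intro F _
  split_ifs with h0
  · rw [h0, pow_zero, mul_one]
  · rw [zero_pow h0, mul_zero]

theorem pr_add (m n : ℕ) {q : ℝ} (hq : 0 < q) (A : Finset Edg → Prop) :
    pr m n q A + pr m n q (fun F => ¬ A F) = 1 := by
  classical
  unfold pr
  rw [Finset.sum_filter_add_sum_filter_not, fk_sum m n hq]

theorem card_trees (m n : ℕ) [DecidablePred (IsTree m n)] :
    (((edges m n).powerset.filter (IsTree m n)).card : ℝ) = ZZ m n 0 := by
  unfold ZZ
  rw [Finset.card_eq_sum_ones, Finset.sum_filter]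
  push_cast
  apply Finset.sum_congr rfl
  intro F hF
  by_cases h : IsTree m n F
  · rw [if_pos h, (isTree_iff (Finset.mem_powerset.mp hF)).mp h, pow_zero]
  · rw [if_neg h, zero_pow (fun h0 => h ((isTree_iff (Finset.mem_powerset.mp hF)).mpr h0))]

theorem tv_eq (m n : ℕ) {q : ℝ} (hq : 0 < q) :
    tv m n q = 1 - ZZ m n 0 / ZZ m n (Real.sqrt q) := by
  classical
  have hs := Real.sqrt_pos.mpr hq
  have hZ := ZZ_pos m n hs
  have hZ0 := ZZ_zero_pos m n
  have hle := ZZ_mono m n le_rfl hs.le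
  have hterm : ∀ F ∈ (edges m n).powerset, |fk m n q F - ust m n F| =
      fk m n q F + (1 / ZZ m n 0 - 2 / ZZ m n (Real.sqrt q)) * 0 ^ loops m n F := by
    intro F hF
    have hF' := Finset.mem_powerset.mp hF
    unfold ust
    rw [card_trees]
    by_cases h : IsTree m n F
    · have h0 := (isTree_iff hF').mp h
      rw [if_pos h, fk_eq hq hF', h0, pow_zero, pow_zero, abs_sub_comm, abs_of_nonneg]
      · ring
      · rw [sub_nonneg]
        exact one_div_le_one_div_of_le (by linarith) hle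
    · have h0 : loops m n F ≠ 0 := fun h0 => h ((isTree_iff hF').mpr h0)
      rw [if_neg h, sub_zero, abs_of_nonneg (fk_nonneg hq hF'), zero_pow h0, mul_zero, add_zero]
  unfold tv
  rw [Finset.sum_congr rfl hterm, Finset.sum_add_distrib, fk_sum m n hq, ← Finset.mul_sum]
  change 1 / 2 * (1 + (1 / ZZ m n 0 - 2 / ZZ m n (Real.sqrt q)) * ZZ m n 0) = _
  have h1 : ZZ m n 0 ≠ 0 := by positivity
  field_simp
  ring

theorem tv_pr (m n : ℕ) {q : ℝ} (hq : 0 < q) :
    tv m n q = pr m n q (fun F => 1 ≤ loops m n F) := by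
  have h := pr_add m n hq (fun F => loops m n F = 0)
  rw [pr_zero m n hq] at h
  rw [tv_eq m n hq]
  have h2 : (fun F => 1 ≤ loops m n F) = (fun F => ¬ loops m n F = 0) := by
    funext F
    exact propext (by omega)
  rw [h2]
  linarith

theorem tv_le (m n : ℕ) {q : ℝ} (hq : 0 < q) :
    tv m n q ≤ 1 - 1 / (1 + Real.sqrt q) ^ (2 * m * n) := by
  have hs := Real.sqrt_pos.mpr hq
  have hZ := ZZ_pos m n hs
  rw [tv_eq m n hq]
  have h := ZZ_anti m n (u := 0) (v := Real.sqrt q) le_rfl hs.le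
  rw [add_zero, one_pow, mul_one, card_edges, ← mul_assoc] at h
  have : 1 / (1 + Real.sqrt q) ^ (2 * m * n) ≤ ZZ m n 0 / ZZ m n (Real.sqrt q) := by
    rw [div_le_div_iff₀ (by positivity) hZ]
    linarith
  linarith

/-- `E s^loops` for `s ≤ 1`. -/
theorem gen_low {m n : ℕ} {q : ℝ} (hq : 0 < q) (hq4 : q ≤ 4) {s : ℝ} (hs : 0 ≤ s) (hs1 : s ≤ 1) :
    ZZ m n (Real.sqrt q * s) / ZZ m n (Real.sqrt q) ≤
      (1 - Real.sqrt q / 2 ^ 25 * (1 - s)) ^ (idx m n).card := by
  have ht := Real.sqrt_pos.mpr hq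
  have ht2 : Real.sqrt q ≤ 2 := by
    rw [show (2 : ℝ) = Real.sqrt 4 by
      rw [show (4 : ℝ) = 2 ^ 2 by norm_num, Real.sqrt_sq (by norm_num)]]
    exact Real.sqrt_le_sqrt hq4
  have hZ := ZZ_pos m n ht
  rw [div_le_iff₀ hZ]
  refine le_trans ?_ (iso_gen (idx m n) subset_rfl ht ht2 hs hs1)
  unfold ZZ
  apply Finset.sum_le_sum
  intro F _
  rw [mul_pow, mul_comm]
  gcongr ?_ * _
  exact pow_le_pow_of_le_one hs hs1 (nIso_le F)

theorem pow_exp {x : ℝ} (_hx : 0 ≤ x) (hx1 : x ≤ 1) (M : ℕ) : (1 - x) ^ M ≤ Real.exp (-(M * x)) := by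
  have h : 1 - x ≤ Real.exp (-x) := by
    have := Real.add_one_le_exp (-x)
    linarith
  calc (1 - x) ^ M ≤ Real.exp (-x) ^ M := pow_le_pow_left₀ (by linarith) h M
    _ = Real.exp (-(M * x)) := by rw [← Real.exp_nat_mul]; congr 1; ring

theorem sqrt_le_two {q : ℝ} (hq4 : q ≤ 4) : Real.sqrt q ≤ 2 := by
  rw [show (2 : ℝ) = Real.sqrt 4 by
    rw [show (4 : ℝ) = 2 ^ 2 by norm_num, Real.sqrt_sq (by norm_num)]]
  exact Real.sqrt_le_sqrt hq4

theorem gen_low_exp {m n : ℕ} {q : ℝ} (hq : 0 < q) (hq4 : q ≤ 4) {s : ℝ} (hs : 0 ≤ s)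
    (hs1 : s ≤ 1) :
    ZZ m n (Real.sqrt q * s) / ZZ m n (Real.sqrt q) ≤
      Real.exp (-((1 - s) * (Real.sqrt q * (m * n) / 2 ^ 29))) := by
  refine (gen_low hq hq4 hs hs1).trans ?_
  have ht := Real.sqrt_pos.mpr hq
  have ht2 := sqrt_le_two hq4
  have h0 : 0 ≤ Real.sqrt q / 2 ^ 25 * (1 - s) :=
    mul_nonneg (by positivity) (by linarith)
  have h1 : Real.sqrt q / 2 ^ 25 * (1 - s) ≤ 1 := by
    have h2 : Real.sqrt q / 2 ^ 25 ≤ 1 := by
      rw [div_le_one (by norm_num)]; linarith [show (2:ℝ) ≤ 2 ^ 25 by norm_num]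
    have h3 : 0 ≤ Real.sqrt q / 2 ^ 25 := by positivity
    nlinarith
  refine (pow_exp h0 h1 _).trans ?_
  rw [Real.exp_le_exp, neg_le_neg_iff]
  have hc := card_idx m n
  have hmn : (0:ℝ) ≤ (m : ℝ) * n := by positivity
  have hs' : 0 ≤ 1 - s := by linarith
  calc (1 - s) * (Real.sqrt q * (m * n) / 2 ^ 29)
      ≤ (1 - s) * (Real.sqrt q * (m * n) / (9 * 2 ^ 25)) := by
        gcongr
        norm_num
    _ = (m * n / 9) * (Real.sqrt q / 2 ^ 25 * (1 - s)) := by ring
    _ ≤ ((idx m n).card : ℝ) * (Real.sqrt q / 2 ^ 25 * (1 - s)) := by gcongr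

theorem tv_ge (m n : ℕ) {q : ℝ} (hq : 0 < q) (hq4 : q ≤ 4) :
    1 - Real.exp (-(Real.sqrt q * (m * n) / 2 ^ 29)) ≤ tv m n q := by
  rw [tv_eq m n hq]
  have h := gen_low_exp (m := m) (n := n) hq hq4 (s := 0) le_rfl zero_le_one
  rw [mul_zero, sub_zero, one_mul] at h
  linarith

/-- `E s^loops` for `s ≥ 1`. -/
theorem gen_up {m n : ℕ} {q : ℝ} (hq : 0 < q) {s : ℝ} (hs : 1 ≤ s) :
    ZZ m n (Real.sqrt q * s) / ZZ m n (Real.sqrt q) ≤
      ((1 + Real.sqrt q * s) / (1 + Real.sqrt q)) ^ (2 * (m * n)) := by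
  have ht := Real.sqrt_pos.mpr hq
  have hZ := ZZ_pos m n ht
  have h := ZZ_anti m n (u := Real.sqrt q) (v := Real.sqrt q * s) ht.le (by nlinarith)
  rw [card_edges] at h
  rw [div_pow, div_le_div_iff₀ hZ (by positivity)]
  linarith

/-- Markov's inequality for `a ^ loops`. -/
theorem markov {m n : ℕ} {q : ℝ} (hq : 0 < q) {a C : ℝ} (ha : 0 < a) (hC : 0 < C)
    (A : Finset Edg → Prop) (hA : ∀ F, A F → C ≤ a ^ loops m n F) :
    pr m n q A ≤ (ZZ m n (Real.sqrt q * a) / ZZ m n (Real.sqrt q)) / C := by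
  classical
  rw [le_div_iff₀ hC, ← gen hq a]
  unfold pr
  rw [Finset.sum_mul, Finset.sum_filter]
  apply Finset.sum_le_sum
  intro F hF
  have h0 := fk_nonneg hq (Finset.mem_powerset.mp hF)
  split_ifs with h
  · exact mul_le_mul_of_nonneg_left (hA F h) h0
  · exact mul_nonneg h0 (pow_nonneg ha.le _)

theorem low_tail {m n : ℕ} {q : ℝ} (hq : 0 < q) (hq4 : q ≤ 4) :
    pr m n q (fun F => (loops m n F : ℝ) ≤ Real.sqrt q * (m * n) / 2 ^ 31) ≤
      Real.exp (-(Real.sqrt q * (m * n) / 2 ^ 31)) := by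
  obtain ⟨x, hx⟩ : ∃ x, x = Real.sqrt q * (m * n) / 2 ^ 31 := ⟨_, rfl⟩
  have hx0 : 0 ≤ x := by rw [hx]; positivity
  rw [← hx]
  have h1 := markov (m := m) (n := n) hq (a := 1 / 2) (C := Real.exp (-x)) (by norm_num)
    (Real.exp_pos _) (fun F => (loops m n F : ℝ) ≤ x) (fun F hF => by
      have h2 : Real.exp (-1) ≤ 1 / 2 := by
        rw [Real.exp_neg, inv_eq_one_div]
        apply one_div_le_one_div_of_le (by norm_num)
        linarith [Real.add_one_le_exp (1:ℝ)]
      calc Real.exp (-x) ≤ Real.exp (-(loops m n F : ℝ)) := by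
            rw [Real.exp_le_exp]; linarith
        _ = Real.exp (-1) ^ loops m n F := by
            rw [← Real.exp_nat_mul]; congr 1; ring
        _ ≤ (1 / 2) ^ loops m n F := pow_le_pow_left₀ (Real.exp_pos _).le h2 _)
  refine h1.trans ?_
  rw [div_le_iff₀ (Real.exp_pos _), ← Real.exp_add]
  have h3 := gen_low_exp (m := m) (n := n) hq hq4 (s := 1 / 2) (by norm_num) (by norm_num)
  refine h3.trans ?_
  rw [Real.exp_le_exp, hx]
  have : 0 ≤ Real.sqrt q * (m * n) := by positivity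
  nlinarith

theorem up_tail {m n : ℕ} {q : ℝ} (hq : 0 < q) :
    pr m n q (fun F => 6 * (Real.sqrt q * (m * n)) ≤ (loops m n F : ℝ)) ≤
      Real.exp (-(2 * (Real.sqrt q * (m * n)))) := by
  obtain ⟨x, hx⟩ : ∃ x, x = Real.sqrt q * (m * n) := ⟨_, rfl⟩
  have ht := Real.sqrt_pos.mpr hq
  have hx0 : 0 ≤ x := by rw [hx]; positivity
  rw [← hx]
  have h1 := markov (m := m) (n := n) hq (a := 2) (C := Real.exp (4 * x)) (by norm_num)
    (Real.exp_pos _) (fun F => 6 * x ≤ (loops m n F : ℝ)) (fun F hF => by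
      have h2 : Real.exp (2 / 3) ≤ 2 := by
        have h3 : (2 / 3 : ℝ) ≤ Real.log 2 := by linarith [Real.log_two_gt_d9]
        calc Real.exp (2 / 3) ≤ Real.exp (Real.log 2) := Real.exp_le_exp.mpr h3
          _ = 2 := Real.exp_log (by norm_num)
      calc Real.exp (4 * x) ≤ Real.exp ((loops m n F : ℝ) * (2 / 3)) := by
            rw [Real.exp_le_exp]; linarith
        _ = Real.exp (2 / 3) ^ loops m n F := by
            rw [← Real.exp_nat_mul]
        _ ≤ 2 ^ loops m n F := pow_le_pow_left₀ (Real.exp_pos _).le h2 _)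
  refine h1.trans ?_
  rw [div_le_iff₀ (Real.exp_pos _), ← Real.exp_add]
  have h3 := gen_up (m := m) (n := n) hq (s := 2) (by norm_num)
  refine h3.trans ?_
  have h4 : (1 + Real.sqrt q * 2) / (1 + Real.sqrt q) ≤ Real.exp (Real.sqrt q) := by
    rw [div_le_iff₀ (by positivity)]
    have := Real.add_one_le_exp (Real.sqrt q)
    nlinarith
  calc ((1 + Real.sqrt q * 2) / (1 + Real.sqrt q)) ^ (2 * (m * n))
      ≤ Real.exp (Real.sqrt q) ^ (2 * (m * n)) := pow_le_pow_left₀ (by positivity) h4 _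
    _ = Real.exp (2 * x) := by
        rw [← Real.exp_nat_mul, hx]; congr 1; push_cast; ring
    _ = _ := by congr 1; ring

theorem mean_le (m n : ℕ) {q : ℝ} (hq : 0 < q) :
    mean m n q ≤ Real.sqrt q / (1 + Real.sqrt q) * (2 * (m * n)) := by
  have ht := Real.sqrt_pos.mpr hq
  obtain ⟨x, hx⟩ : ∃ x, x = Real.sqrt q / (1 + Real.sqrt q) := ⟨_, rfl⟩
  have hη : ∀ η : ℝ, 0 < η → mean m n q ≤ ((1 + η * x) ^ (2 * (m * n)) - 1) / η := by
    intro η hη
    rw [le_div_iff₀ hη, le_sub_iff_add_le]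
    have h1 := gen_up (m := m) (n := n) hq (s := 1 + η) (by linarith)
    rw [← gen hq] at h1
    have h2 : (1 + Real.sqrt q * (1 + η)) / (1 + Real.sqrt q) = 1 + η * x := by
      rw [hx]; field_simp
      ring
    rw [h2] at h1
    refine le_trans ?_ h1
    have h4 : mean m n q * η + 1 =
        ∑ F ∈ (edges m n).powerset, (fk m n q F * loops m n F * η + fk m n q F) := by
      rw [Finset.sum_add_distrib, fk_sum m n hq, ← Finset.sum_mul]
      rfl
    rw [h4]
    apply Finset.sum_le_sum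
    intro F hF
    have h0 := fk_nonneg hq (Finset.mem_powerset.mp hF)
    have h3 := one_add_mul_le_pow (show (-2 : ℝ) ≤ η by linarith) (loops m n F)
    nlinarith
  have hder : HasDerivAt (fun η : ℝ => (1 + η * x) ^ (2 * (m * n)))
      ((2 * (m * n) : ℕ) * (1 + 0 * x) ^ (2 * (m * n) - 1) * (1 * x)) 0 :=
    (((hasDerivAt_id (0:ℝ)).mul_const x).const_add 1).pow _
  have hlim := hder.tendsto_slope_zero_right
  have hle : mean m n q ≤ (2 * (m * n) : ℕ) * (1 + 0 * x) ^ (2 * (m * n) - 1) * (1 * x) := by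
    refine ge_of_tendsto hlim ?_
    filter_upwards [self_mem_nhdsWithin] with η hη'
    have := hη η hη'
    simp only [zero_add, zero_mul, add_zero, one_pow, smul_eq_mul]
    calc mean m n q ≤ _ := this
      _ = _ := by rw [div_eq_inv_mul]
  rw [zero_mul, add_zero, one_pow, hx] at hle
  push_cast at hle
  linarith

theorem mean_ge (m n : ℕ) {q : ℝ} (hq : 0 < q) (hq4 : q ≤ 4) :
    Real.sqrt q * (m * n) / 2 ^ 29 ≤ mean m n q := by
  classical
  have ht := Real.sqrt_pos.mpr hq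
  have ht2 := sqrt_le_two hq4
  have hZ := ZZ_pos m n ht
  have h1 : ∀ i ∈ idx m n, Real.sqrt q / 2 ^ 25 ≤
      ∑ F ∈ (edges m n).powerset, if Iso i F then fk m n q F else 0 := by
    intro i hi
    have h2 := iso_gen (m := m) (n := n) {i} (Finset.singleton_subset_iff.mpr hi) ht ht2
      (s := 0) le_rfl zero_le_one
    rw [Finset.card_singleton, pow_one, sub_zero, mul_one] at h2
    have h3 : ∑ F ∈ (edges m n).powerset, (0 : ℝ) ^ nIso {i} F * Real.sqrt q ^ loops m n F =
        ZZ m n (Real.sqrt q) * (1 - ∑ F ∈ (edges m n).powerset, if Iso i F then fk m n q F else 0)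
        := by
      rw [← fk_sum m n hq, ← Finset.sum_sub_distrib, Finset.mul_sum]
      apply Finset.sum_congr rfl
      intro F hF
      unfold nIso
      rw [Finset.filter_singleton]
      split_ifs with h
      · rw [Finset.card_singleton, sub_self]; simp
      · rw [Finset.card_empty, pow_zero, one_mul, sub_zero, fk_eq hq (Finset.mem_powerset.mp hF)]
        field_simp
    rw [h3, mul_comm] at h2
    have h4 := le_of_mul_le_mul_right h2 hZ
    linarith
  have h5 : ((idx m n).card : ℝ) * (Real.sqrt q / 2 ^ 25) ≤ mean m n q := by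
    calc ((idx m n).card : ℝ) * (Real.sqrt q / 2 ^ 25)
        = ∑ _i ∈ idx m n, Real.sqrt q / 2 ^ 25 := by rw [Finset.sum_const, nsmul_eq_mul]
      _ ≤ ∑ i ∈ idx m n, ∑ F ∈ (edges m n).powerset, (if Iso i F then fk m n q F else 0) :=
          Finset.sum_le_sum h1
      _ = ∑ F ∈ (edges m n).powerset, fk m n q F * nIso (idx m n) F := by
          rw [Finset.sum_comm]
          apply Finset.sum_congr rfl
          intro F _
          unfold nIso
          rw [← Finset.sum_filter, Finset.sum_const, nsmul_eq_mul, mul_comm]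
      _ ≤ mean m n q := by
          apply Finset.sum_le_sum
          intro F hF
          have h0 := fk_nonneg hq (Finset.mem_powerset.mp hF)
          gcongr
          exact nIso_le F
  refine le_trans ?_ h5
  have hc := card_idx m n
  have hmn : (0:ℝ) ≤ (m : ℝ) * n := by positivity
  calc Real.sqrt q * (m * n) / 2 ^ 29 ≤ Real.sqrt q * (m * n) / (9 * 2 ^ 25) := by
        gcongr
        norm_num
    _ = (m * n / 9) * (Real.sqrt q / 2 ^ 25) := by ring
    _ ≤ _ := by gcongr

theorem window (m n : ℕ → ℕ) (q : ℕ → ℝ) (hq : ∀ k, 0 < q k ∧ q k ≤ 4) :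
    (Tendsto (fun k => q k * ((m k : ℝ) * n k) ^ 2) atTop (𝓝 0) →
      Tendsto (fun k => tv (m k) (n k) (q k)) atTop (𝓝 0)) ∧
    (Tendsto (fun k => q k * ((m k : ℝ) * n k) ^ 2) atTop atTop →
      Tendsto (fun k => tv (m k) (n k) (q k)) atTop (𝓝 1)) := by
  have hsq : ∀ k, Real.sqrt (q k * ((m k : ℝ) * n k) ^ 2) =
      Real.sqrt (q k) * ((m k : ℝ) * n k) := by
    intro k
    rw [Real.sqrt_mul (hq k).1.le, Real.sqrt_sq (by positivity)]
  have hle1 : ∀ k, tv (m k) (n k) (q k) ≤ 1 := by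
    intro k
    refine (tv_le _ _ (hq k).1).trans ?_
    have : 0 ≤ 1 / (1 + Real.sqrt (q k)) ^ (2 * m k * n k) := by positivity
    linarith
  constructor
  · intro h
    have h1 : Tendsto (fun k => Real.sqrt (q k) * ((m k : ℝ) * n k)) atTop (𝓝 0) := by
      have h2 := (Real.continuous_sqrt.tendsto 0).comp h
      rw [Real.sqrt_zero] at h2
      exact h2.congr fun k => hsq k
    have h3 : Tendsto (fun k => 2 * (Real.sqrt (q k) * ((m k : ℝ) * n k))) atTop (𝓝 0) := by
      simpa using h1.const_mul 2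
    refine squeeze_zero (fun k => ?_) (fun k => ?_) h3
    · have := tv_ge (m k) (n k) (hq k).1 (hq k).2
      have h4 : Real.exp (-(Real.sqrt (q k) * (m k * n k) / 2 ^ 29)) ≤ 1 := by
        rw [Real.exp_le_one_iff]
        have : 0 ≤ Real.sqrt (q k) * (m k * n k) / 2 ^ 29 := by positivity
        linarith
      linarith
    · refine (tv_le _ _ (hq k).1).trans ?_
      have ht := Real.sqrt_pos.mpr (hq k).1
      have h5 : (1 + Real.sqrt (q k)) ^ (2 * m k * n k) ≤
          Real.exp (2 * (Real.sqrt (q k) * ((m k : ℝ) * n k))) := by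
        calc (1 + Real.sqrt (q k)) ^ (2 * m k * n k)
            ≤ Real.exp (Real.sqrt (q k)) ^ (2 * m k * n k) := by
              apply pow_le_pow_left₀ (by positivity)
              linarith [Real.add_one_le_exp (Real.sqrt (q k))]
          _ = _ := by
              rw [← Real.exp_nat_mul]; congr 1; push_cast; ring
      have h6 : Real.exp (-(2 * (Real.sqrt (q k) * ((m k : ℝ) * n k)))) ≤
          1 / (1 + Real.sqrt (q k)) ^ (2 * m k * n k) := by
        rw [Real.exp_neg, inv_eq_one_div]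
        exact one_div_le_one_div_of_le (by positivity) h5
      have h7 := Real.add_one_le_exp (-(2 * (Real.sqrt (q k) * ((m k : ℝ) * n k))))
      linarith
  · intro h
    have h1 : Tendsto (fun k => Real.sqrt (q k) * ((m k : ℝ) * n k)) atTop atTop := by
      have h2 := Real.tendsto_sqrt_atTop.comp h
      exact h2.congr fun k => hsq k
    have h2 : Tendsto (fun k => 1 - Real.exp (-(Real.sqrt (q k) * ((m k : ℝ) * n k) / 2 ^ 29)))
        atTop (𝓝 1) := by
      have h3 : Tendsto (fun k => Real.exp (-(Real.sqrt (q k) * ((m k : ℝ) * n k) / 2 ^ 29)))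
          atTop (𝓝 0) :=
        Real.tendsto_exp_neg_atTop_nhds_zero.comp (h1.atTop_div_const (by norm_num))
      simpa using h3.const_sub 1
    exact tendsto_of_tendsto_of_tendsto_of_le_of_le h2 tendsto_const_nhds
      (fun k => tv_ge _ _ (hq k).1 (hq k).2) hle1

end Pool.Agent.Q297.FKL
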