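import Pool.Agent.Q297.FKL.Loc

/-!
Many isolated vertices.
-/

set_option autoImplicit false

namespace Pool.Agent.Q297.FKL

open H974 Finset

theorem sum_split (S B : Finset Edg) (hB : B ⊆ S) (f : Finset Edg → ℝ) :
    ∑ F ∈ S.powerset, f F = ∑ H ∈ (S \ B).powerset, ∑ K ∈ B.powerset, f (H ∪ K) := by
  rw [← Finset.sum_product']
  refine Finset.sum_nbij' (fun F => (F \ B, F ∩ B)) (fun p => p.1 ∪ p.2) ?_ ?_ ?_ ?_ ?_
  · intro F hF
    rw [Finset.mem_powerset] at hF
    rw [Finset.mem_product, Finset.mem_powerset, Finset.mem_powerset]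
    exact ⟨Finset.sdiff_subset_sdiff hF subset_rfl, Finset.inter_subset_right⟩
  · rintro ⟨H, K⟩ hp
    rw [Finset.mem_product, Finset.mem_powerset, Finset.mem_powerset] at hp
    rw [Finset.mem_powerset]
    exact Finset.union_subset (hp.1.trans Finset.sdiff_subset) (hp.2.trans hB)
  · intro F _
    exact Finset.sdiff_union_inter F B
  · rintro ⟨H, K⟩ hp
    rw [Finset.mem_product, Finset.mem_powerset, Finset.mem_powerset] at hp
    have hd : Disjoint H B := by
      rw [Finset.disjoint_left]
      intro e he he2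
      exact (Finset.mem_sdiff.mp (hp.1 he)).2 he2
    ext e
    · simp only [Finset.mem_sdiff, Finset.mem_union]
      constructor
      · rintro ⟨h | h, h2⟩
        · exact h
        · exact absurd (hp.2 h) h2
      · intro h
        exact ⟨Or.inl h, fun h2 => (Finset.disjoint_left.mp hd h h2)⟩
    · simp only [Finset.mem_inter, Finset.mem_union]
      constructor
      · rintro ⟨h | h, h2⟩
        · exact absurd h2 (Finset.disjoint_left.mp hd h)
        · exact h
      · intro h
        exact ⟨Or.inr h, hp.2 h⟩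
  · intro F _
    rw [Finset.sdiff_union_inter]

/-- The number of isolated centres. -/
noncomputable def nIso (I : Finset (ℕ × ℕ)) (F : Finset Edg) : ℕ := by
  classical exact (I.filter fun i => Iso i F).card

open Classical in
/-- Conditionally on the outside of the block, the centre is isolated with probability at least
`t / 2 ^ 25`. -/
theorem block_bound {m n : ℕ} {i : ℕ × ℕ} (hi : i ∈ idx m n) {t : ℝ} (ht : 0 < t) (ht2 : t ≤ 2)
    {H : Finset Edg} (hH : H ⊆ edges m n \ blk m n i) :
    t / 2 ^ 25 * ∑ K ∈ (blk m n i).powerset, t ^ loops m n (H ∪ K) ≤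
      ∑ K ∈ (blk m n i).powerset, if Iso i (H ∪ K) then t ^ loops m n (H ∪ K) else 0 := by
  obtain ⟨T, hT⟩ : ∃ T, T = ∑ K ∈ (blk m n i \ star m n i).powerset, t ^ loops m n (H ∪ K) :=
    ⟨_, rfl⟩
  have hiso : ∀ K ∈ (blk m n i \ star m n i).powerset, Iso i (H ∪ K) := by
    intro K hK e he
    rw [Finset.mem_powerset] at hK
    have h1 : e ∈ edges m n ∧ e ∉ star m n i := by
      rcases Finset.mem_union.mp he with he | he
      · have := Finset.mem_sdiff.mp (hH he)
        exact ⟨this.1, fun hs => this.2 (star_sub m n i hs)⟩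
      · have := Finset.mem_sdiff.mp (hK he)
        exact ⟨blk_sub m n i this.1, this.2⟩
    unfold star at h1
    rw [Finset.mem_filter] at h1
    tauto
  have hTle : T ≤ ∑ K ∈ (blk m n i).powerset,
      if Iso i (H ∪ K) then t ^ loops m n (H ∪ K) else 0 := by
    rw [hT]
    calc ∑ K ∈ (blk m n i \ star m n i).powerset, t ^ loops m n (H ∪ K)
        = ∑ K ∈ (blk m n i \ star m n i).powerset,
          (if Iso i (H ∪ K) then t ^ loops m n (H ∪ K) else 0) := by
          apply Finset.sum_congr rfl
          intro K hK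
          rw [if_pos (hiso K hK)]
      _ ≤ _ := by
          apply Finset.sum_le_sum_of_subset_of_nonneg
          · exact Finset.powerset_mono.mpr Finset.sdiff_subset
          · intro K _ _
            split_ifs
            · exact pow_nonneg ht.le _
            · exact le_rfl
  have hone : ∀ K ∈ (blk m n i).powerset, t * t ^ loops m n (H ∪ K) ≤ 2 ^ 13 * T := by
    intro K hK
    obtain ⟨K', hK', h1, h2⟩ := isolate hi hH (Finset.mem_powerset.mp hK)
    have h3 : t ^ loops m n (H ∪ K') ≤ T := by
      rw [hT]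
      exact Finset.single_le_sum (f := fun K => t ^ loops m n (H ∪ K))
        (fun _ _ => pow_nonneg ht.le _) (Finset.mem_powerset.mpr hK')
    have h4 : t * t ^ loops m n (H ∪ K) ≤ 2 ^ 13 * t ^ loops m n (H ∪ K') := by
      rcases le_total t 1 with h | h
      · calc t * t ^ loops m n (H ∪ K) = t ^ (loops m n (H ∪ K) + 1) := by ring
          _ ≤ t ^ loops m n (H ∪ K') := pow_le_pow_of_le_one ht.le h h1
          _ ≤ 2 ^ 13 * t ^ loops m n (H ∪ K') := by
            have := pow_nonneg ht.le (loops m n (H ∪ K'))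
            nlinarith
      · calc t * t ^ loops m n (H ∪ K) = t ^ (loops m n (H ∪ K) + 1) := by ring
          _ ≤ t ^ (loops m n (H ∪ K') + 13) := pow_le_pow_right₀ h (by omega)
          _ = t ^ 13 * t ^ loops m n (H ∪ K') := by ring
          _ ≤ 2 ^ 13 * t ^ loops m n (H ∪ K') := by
            gcongr
    calc t * t ^ loops m n (H ∪ K) ≤ 2 ^ 13 * t ^ loops m n (H ∪ K') := h4
      _ ≤ 2 ^ 13 * T := by gcongr
  have hcard : ((blk m n i).powerset.card : ℝ) ≤ 2 ^ 12 := by
    rw [Finset.card_powerset]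
    push_cast
    exact pow_le_pow_right₀ (by norm_num) (card_blk m n i)
  have hT0 : 0 ≤ T := by
    rw [hT]; exact Finset.sum_nonneg fun _ _ => pow_nonneg ht.le _
  have hsum : t * ∑ K ∈ (blk m n i).powerset, t ^ loops m n (H ∪ K) ≤ 2 ^ 25 * T := by
    rw [Finset.mul_sum]
    calc ∑ K ∈ (blk m n i).powerset, t * t ^ loops m n (H ∪ K)
        ≤ ∑ _K ∈ (blk m n i).powerset, 2 ^ 13 * T := Finset.sum_le_sum hone
      _ = ((blk m n i).powerset.card : ℝ) * (2 ^ 13 * T) := by
          rw [Finset.sum_const, nsmul_eq_mul]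
      _ ≤ 2 ^ 12 * (2 ^ 13 * T) := by gcongr
      _ = 2 ^ 25 * T := by ring
  calc t / 2 ^ 25 * ∑ K ∈ (blk m n i).powerset, t ^ loops m n (H ∪ K)
      = (t * ∑ K ∈ (blk m n i).powerset, t ^ loops m n (H ∪ K)) / 2 ^ 25 := by ring
    _ ≤ (2 ^ 25 * T) / 2 ^ 25 := by gcongr
    _ = T := by ring
    _ ≤ _ := hTle

theorem blk_disj {m n : ℕ} {i j : ℕ × ℕ} (hij : i ≠ j) {e : Edg} (he : e ∈ blk m n i) :
    src e ≠ ctr j ∧ tgt e ≠ ctr j := by
  unfold blk at he
  rw [Finset.mem_filter] at he
  obtain ⟨_, h1, h2⟩ := he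
  unfold InB at h1 h2
  have a1 := ctr_fst i
  have a2 := ctr_snd i
  have b1 := ctr_fst j
  have b2 := ctr_snd j
  constructor
  · intro h
    apply hij
    rw [h] at h1
    apply Prod.ext
    · omega
    · omega
  · intro h
    apply hij
    rw [h] at h2
    apply Prod.ext
    · omega
    · omega

theorem nIso_out {m n : ℕ} {i : ℕ × ℕ} {I : Finset (ℕ × ℕ)} (hi : i ∉ I) {H K : Finset Edg}
    (hK : K ⊆ blk m n i) : nIso I (H ∪ K) = nIso I H := by
  classical
  unfold nIso
  congr 1
  apply Finset.filter_congr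
  intro j hj
  unfold Iso
  constructor
  · intro h e he
    exact h e (Finset.mem_union_left _ he)
  · intro h e he
    rcases Finset.mem_union.mp he with he | he
    · exact h e he
    · exact blk_disj (i := i) (j := j) (fun hh : i = j => hi (by rw [hh]; exact hj)) (hK he)

/-- The exponential moment of the number of isolated centres. -/
theorem iso_gen {m n : ℕ} (I : Finset (ℕ × ℕ)) (hI : I ⊆ idx m n) {t : ℝ} (ht : 0 < t)
    (ht2 : t ≤ 2) {s : ℝ} (hs : 0 ≤ s) (hs1 : s ≤ 1) :
    ∑ F ∈ (edges m n).powerset, s ^ nIso I F * t ^ loops m n F ≤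
      (1 - t / 2 ^ 25 * (1 - s)) ^ I.card * ZZ m n t := by
  classical
  induction I using Finset.induction_on with
  | empty => simp [nIso, ZZ]
  | insert i I hi ih =>
    have hiI := hI (Finset.mem_insert_self i I)
    have ih' := ih (fun j hj => hI (Finset.mem_insert_of_mem hj))
    have hδ : 0 ≤ 1 - t / 2 ^ 25 * (1 - s) := by
      have : t / 2 ^ 25 * (1 - s) ≤ 1 := by
        have h1 : t / 2 ^ 25 ≤ 1 := by
          rw [div_le_one (by norm_num)]; linarith [show (2:ℝ) ≤ 2 ^ 25 by norm_num]
        have h2 : 0 ≤ t / 2 ^ 25 := by positivity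
        nlinarith
      linarith
    have hstep : ∀ F, s ^ nIso (insert i I) F * t ^ loops m n F =
        s ^ nIso I F * (t ^ loops m n F - (1 - s) * (if Iso i F then t ^ loops m n F else 0)) := by
      intro F
      unfold nIso
      rw [Finset.filter_insert]
      split_ifs with h
      · rw [Finset.card_insert_of_notMem (fun hh => hi (Finset.mem_filter.mp hh).1), pow_succ]
        ring
      · ring
    rw [Finset.sum_congr rfl fun F _ => hstep F, sum_split _ _ (blk_sub m n i),
      Finset.card_insert_of_notMem hi, pow_succ]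
    have hin : ∀ H ∈ (edges m n \ blk m n i).powerset,
        ∑ K ∈ (blk m n i).powerset, s ^ nIso I (H ∪ K) * (t ^ loops m n (H ∪ K) -
          (1 - s) * (if Iso i (H ∪ K) then t ^ loops m n (H ∪ K) else 0)) ≤
        (1 - t / 2 ^ 25 * (1 - s)) *
          ∑ K ∈ (blk m n i).powerset, s ^ nIso I (H ∪ K) * t ^ loops m n (H ∪ K) := by
      intro H hH
      have e1 : ∑ K ∈ (blk m n i).powerset, s ^ nIso I (H ∪ K) * (t ^ loops m n (H ∪ K) -
          (1 - s) * (if Iso i (H ∪ K) then t ^ loops m n (H ∪ K) else 0)) =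
          s ^ nIso I H * (∑ K ∈ (blk m n i).powerset, t ^ loops m n (H ∪ K) -
          (1 - s) * ∑ K ∈ (blk m n i).powerset,
            (if Iso i (H ∪ K) then t ^ loops m n (H ∪ K) else 0)) := by
        rw [Finset.mul_sum (s := (blk m n i).powerset) (a := (1 - s)), ← Finset.sum_sub_distrib,
          Finset.mul_sum]
        apply Finset.sum_congr rfl
        intro K hK
        rw [nIso_out hi (Finset.mem_powerset.mp hK)]
      have e2 : ∑ K ∈ (blk m n i).powerset, s ^ nIso I (H ∪ K) * t ^ loops m n (H ∪ K) =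
          s ^ nIso I H * ∑ K ∈ (blk m n i).powerset, t ^ loops m n (H ∪ K) := by
        rw [Finset.mul_sum]
        apply Finset.sum_congr rfl
        intro K hK
        rw [nIso_out hi (Finset.mem_powerset.mp hK)]
      rw [e1, e2]
      have hb := block_bound hiI ht ht2 (Finset.mem_powerset.mp hH)
      have hs2 : 0 ≤ 1 - s := by linarith
      have hp : 0 ≤ s ^ nIso I H := pow_nonneg hs _
      have hb2 := mul_le_mul_of_nonneg_left hb hs2
      calc s ^ nIso I H * (∑ K ∈ (blk m n i).powerset, t ^ loops m n (H ∪ K) -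
          (1 - s) * ∑ K ∈ (blk m n i).powerset,
            (if Iso i (H ∪ K) then t ^ loops m n (H ∪ K) else 0))
          ≤ s ^ nIso I H * (∑ K ∈ (blk m n i).powerset, t ^ loops m n (H ∪ K) -
            (1 - s) * (t / 2 ^ 25 * ∑ K ∈ (blk m n i).powerset, t ^ loops m n (H ∪ K))) := by
            gcongr
        _ = _ := by ring
    calc ∑ H ∈ (edges m n \ blk m n i).powerset, ∑ K ∈ (blk m n i).powerset,
          s ^ nIso I (H ∪ K) * (t ^ loops m n (H ∪ K) -
          (1 - s) * (if Iso i (H ∪ K) then t ^ loops m n (H ∪ K) else 0))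
        ≤ ∑ H ∈ (edges m n \ blk m n i).powerset, (1 - t / 2 ^ 25 * (1 - s)) *
          ∑ K ∈ (blk m n i).powerset, s ^ nIso I (H ∪ K) * t ^ loops m n (H ∪ K) :=
          Finset.sum_le_sum hin
      _ = (1 - t / 2 ^ 25 * (1 - s)) *
          ∑ F ∈ (edges m n).powerset, s ^ nIso I F * t ^ loops m n F := by
          rw [← Finset.mul_sum, ← sum_split _ _ (blk_sub m n i)
            (fun F => s ^ nIso I F * t ^ loops m n F)]
      _ ≤ (1 - t / 2 ^ 25 * (1 - s)) * ((1 - t / 2 ^ 25 * (1 - s)) ^ I.card * ZZ m n t) := by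
          gcongr
      _ = _ := by ring

theorem ctr_mem {m n : ℕ} {i : ℕ × ℕ} (hi : i ∈ idx m n) : ctr i ∈ verts m n := by
  rw [mem_idx] at hi
  rw [mem_verts]
  have a1 := ctr_fst i
  have a2 := ctr_snd i
  omega

/-- Isolated vertices are clusters. -/
theorem nIso_le {m n : ℕ} (F : Finset Edg) : nIso (idx m n) F ≤ loops m n F := by
  classical
  have hwir : ∀ i ∈ idx m n, ∀ e ∈ wired m n, src e ≠ ctr i ∧ tgt e ≠ ctr i := by
    intro i hi e he
    obtain ⟨x, y, b⟩ := e
    rw [mem_wired] at he
    have a1 := ctr_fst i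
    have a2 := ctr_snd i
    constructor
    · intro h
      rw [src_mk] at h
      rw [← h] at a1 a2
      simp only at a1 a2
      omega
    · intro h
      cases b
      · rw [tgt_false] at h
        rw [← h] at a1 a2
        simp only [Bool.false_eq_true, false_and, false_or, true_and] at a1 a2 he
        omega
      · rw [tgt_true] at h
        rw [← h] at a1 a2
        simp only [true_and, Bool.true_eq_false, false_and, or_false] at a1 a2 he
        omega
  have hcl : ∀ i ∈ idx m n, Iso i F → ∀ y, Reach (↑F ∪ wired m n) (ctr i) y ↔ y = ctr i := by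
    intro i hi h y
    apply H973.reach_isolated
    intro e he
    rcases he with he | he
    · exact h e he
    · exact hwir i hi e he
  have hkey : nIso (idx m n) F + 1 ≤ clusters m n F := by
    unfold nIso clusters ncl
    obtain ⟨J, hJ⟩ : ∃ J, J = (idx m n).filter fun i => Iso i F := ⟨_, rfl⟩
    have hinj : Set.InjOn (fun i => cl (↑F ∪ wired m n) (ctr i)) (J : Set (ℕ × ℕ)) := by
      intro i hi j hj h
      rw [Finset.mem_coe, hJ, Finset.mem_filter] at hi hj
      have h1 := cl_eq_iff.mp h
      rw [hcl i hi.1 hi.2] at h1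
      have a1 := ctr_fst i
      have a2 := ctr_snd i
      have b1 := ctr_fst j
      have b2 := ctr_snd j
      rw [h1] at b1 b2
      apply Prod.ext
      · omega
      · omega
    have h0 : cl (↑F ∪ wired m n) (0, 0) ∉ (fun i => cl (↑F ∪ wired m n) (ctr i)) '' (J : Set (ℕ × ℕ)) := by
      rintro ⟨i, hi, h⟩
      rw [Finset.mem_coe, hJ, Finset.mem_filter] at hi
      have h1 := cl_eq_iff.mp h
      rw [hcl i hi.1 hi.2] at h1
      have a1 := ctr_fst i
      rw [← h1] at a1
      simp only at a1
      omega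
    have hsub : insert (cl (↑F ∪ wired m n) (0, 0))
        ((fun i => cl (↑F ∪ wired m n) (ctr i)) '' (J : Set (ℕ × ℕ))) ⊆
        cl (↑F ∪ wired m n) '' (verts m n : Set Vtx) := by
      rintro C (rfl | ⟨i, hi, rfl⟩)
      · exact ⟨_, zero_mem m n, rfl⟩
      · rw [Finset.mem_coe, hJ, Finset.mem_filter] at hi
        exact ⟨_, ctr_mem hi.1, rfl⟩
    have hfin : (cl (↑F ∪ wired m n) '' (verts m n : Set Vtx)).Finite :=
      (verts m n).finite_toSet.image _
    have h1 := Set.ncard_le_ncard hsub hfin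
    rw [Set.ncard_insert_of_notMem h0 (J.finite_toSet.image _), hinj.ncard_image,
      Set.ncard_coe_finset, hJ] at h1
    exact h1
  unfold loops
  omega

theorem card_idx (m n : ℕ) : ((m : ℝ) * n) / 9 ≤ ((idx m n).card : ℝ) := by
  unfold idx
  rw [Finset.card_product, Finset.card_range, Finset.card_range]
  have h1 : (m : ℝ) / 3 ≤ (((m + 2) / 3 : ℕ) : ℝ) := by
    rw [div_le_iff₀ (by norm_num)]
    have : m ≤ (m + 2) / 3 * 3 := by omega
    exact_mod_cast this
  have h2 : (n : ℝ) / 3 ≤ (((n + 2) / 3 : ℕ) : ℝ) := by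
    rw [div_le_iff₀ (by norm_num)]
    have : n ≤ (n + 2) / 3 * 3 := by omega
    exact_mod_cast this
  push_cast
  calc (m : ℝ) * n / 9 = (m / 3) * (n / 3) := by ring
    _ ≤ _ := by gcongr

end Pool.Agent.Q297.FKL
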