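import Pool.Agent.Q297.FKL.Defs

/-!
A vertex is isolated with conditional probability at least `c √q`, whatever happens outside its
block.
-/

set_option autoImplicit false

namespace Pool.Agent.Q297.FKL

open H974 Finset

theorem local_merge {R : Finset Vtx} {X : Set Edg} {v c : Vtx} (K : Finset Edg) (hK : Ends R K)
    (hinc : ∀ e ∈ K, (src e = v ∧ Reach X c (tgt e)) ∨ (tgt e = v ∧ Reach X c (src e))) :
    ncl R X ≤ ncl R (↑K ∪ X) + 1 ∧ (K.Nonempty → Reach (↑K ∪ X) c v) ∧
      (K = ∅ → ncl R X = ncl R (↑K ∪ X)) := by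
  classical
  induction K using Finset.induction_on with
  | empty => simp
  | insert e K he ih =>
    obtain ⟨h1, h2, h3⟩ := ih (fun f hf => hK f (Finset.mem_insert_of_mem hf))
      (fun f hf => hinc f (Finset.mem_insert_of_mem hf))
    have hE := hK e (Finset.mem_insert_self e K)
    have hi := hinc e (Finset.mem_insert_self e K)
    have hsub : X ⊆ (↑(insert e K) ∪ X : Set Edg) := Set.subset_union_right
    have hmem : e ∈ (↑(insert e K) ∪ X : Set Edg) := by
      left; simp
    refine ⟨?_, fun _ => ?_, fun h => absurd h (Finset.insert_ne_empty _ _)⟩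
    · rw [union_insert_coe]
      rcases K.eq_empty_or_nonempty with hK0 | hK0
      · have := h3 hK0
        have h4 := ncl_insert_ge (G := ↑K ∪ X) hE.1 hE.2
        omega
      · have h4 := h2 hK0
        rw [ncl_same]
        · exact h1
        · rcases hi with ⟨ha, hb⟩ | ⟨ha, hb⟩
          · rw [ha]
            exact h4.symm.trans (hb.mono Set.subset_union_right)
          · rw [ha]
            exact (hb.mono Set.subset_union_right).symm.trans h4
    · rcases hi with ⟨ha, hb⟩ | ⟨ha, hb⟩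
      · refine (hb.mono hsub).trans (Adj.reach ⟨e, hmem, Or.inr ⟨ha, rfl⟩⟩)
      · refine (hb.mono hsub).trans (Adj.reach ⟨e, hmem, Or.inl ⟨rfl, ha⟩⟩)

theorem local_step {R : Finset Vtx} (G : Set Edg) (Q K : Finset Edg) (hQ : Ends R Q)
    (hK : Ends R K) {v c : Vtx}
    (hinc : ∀ e ∈ K, (src e = v ∧ Reach (↑Q ∪ G) c (tgt e)) ∨
      (tgt e = v ∧ Reach (↑Q ∪ G) c (src e))) :
    ∃ D ⊆ Q, ncl R (↑D ∪ G) + D.card = ncl R G ∧
      ncl R G ≤ ncl R (↑K ∪ G) + D.card + 1 := by
  obtain ⟨D, hD, h1, h2⟩ := greedy Q hQ G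
  refine ⟨D, hD, h1, ?_⟩
  have h3 := (local_merge (X := ↑D ∪ G) K hK (v := v) (c := c) (fun e he => by
    rcases hinc e he with ⟨ha, hb⟩ | ⟨ha, hb⟩
    · exact Or.inl ⟨ha, h2 _ _ hb⟩
    · exact Or.inr ⟨ha, h2 _ _ hb⟩)).1
  have h4 : ncl R (↑K ∪ (↑D ∪ G)) ≤ ncl R (↑K ∪ G) := by
    apply ncl_anti
    intro e he
    rcases he with he | he
    · exact Or.inl he
    · exact Or.inr (Or.inr he)
  omega

/-- The centre of a block. -/
def ctr (i : ℕ × ℕ) : Vtx := (3 * (i.1 : ℤ) + 1, 3 * (i.2 : ℤ) + 1)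

/-- The indices of the blocks. -/
def idx (m n : ℕ) : Finset (ℕ × ℕ) := Finset.range ((m + 2) / 3) ×ˢ Finset.range ((n + 2) / 3)

/-- The vertex is in the block. -/
def InB (i : ℕ × ℕ) (u : Vtx) : Prop :=
  (ctr i).1 - 1 ≤ u.1 ∧ u.1 ≤ (ctr i).1 + 1 ∧ (ctr i).2 - 1 ≤ u.2 ∧ u.2 ≤ (ctr i).2 + 1

instance (i : ℕ × ℕ) (u : Vtx) : Decidable (InB i u) := by unfold InB; infer_instance

/-- The random edges in the block. -/
noncomputable def blk (m n : ℕ) (i : ℕ × ℕ) : Finset Edg :=
  (edges m n).filter fun e => InB i (src e) ∧ InB i (tgt e)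

/-- The edges at the centre. -/
noncomputable def star (m n : ℕ) (i : ℕ × ℕ) : Finset Edg :=
  (edges m n).filter fun e => src e = ctr i ∨ tgt e = ctr i

/-- The centre is isolated. -/
def Iso (i : ℕ × ℕ) (F : Finset Edg) : Prop := ∀ e ∈ F, src e ≠ ctr i ∧ tgt e ≠ ctr i

theorem ctr_fst (i : ℕ × ℕ) : (ctr i).1 = 3 * (i.1 : ℤ) + 1 := rfl
theorem ctr_snd (i : ℕ × ℕ) : (ctr i).2 = 3 * (i.2 : ℤ) + 1 := rfl

theorem star_sub (m n : ℕ) (i : ℕ × ℕ) : star m n i ⊆ blk m n i := by
  intro e he
  unfold star at he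
  unfold blk
  rw [Finset.mem_filter] at he ⊢
  refine ⟨he.1, ?_⟩
  obtain ⟨x, y, b⟩ := e
  obtain ⟨_, h⟩ := he
  unfold InB
  rcases h with h | h
  · cases b
    · simp only [src_mk, tgt_false] at h ⊢
      rw [← h]
      constructor <;> refine ⟨?_, ?_, ?_, ?_⟩ <;> dsimp only <;> omega
    · simp only [src_mk, tgt_true] at h ⊢
      rw [← h]
      constructor <;> refine ⟨?_, ?_, ?_, ?_⟩ <;> dsimp only <;> omega
  · cases b
    · simp only [src_mk, tgt_false] at h ⊢
      rw [← h]
      constructor <;> refine ⟨?_, ?_, ?_, ?_⟩ <;> dsimp only <;> omega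
    · simp only [src_mk, tgt_true] at h ⊢
      rw [← h]
      constructor <;> refine ⟨?_, ?_, ?_, ?_⟩ <;> dsimp only <;> omega

theorem blk_sub (m n : ℕ) (i : ℕ × ℕ) : blk m n i ⊆ edges m n := Finset.filter_subset _ _

theorem card_blk (m n : ℕ) (i : ℕ × ℕ) : (blk m n i).card ≤ 12 := by
  have hsub : blk m n i ⊆
      (Finset.Icc ((ctr i).1 - 1) (ctr i).1 ×ˢ Finset.Icc ((ctr i).2 - 1) ((ctr i).2 + 1)).image
        (fun p => (p.1, p.2, true)) ∪
      (Finset.Icc ((ctr i).1 - 1) ((ctr i).1 + 1) ×ˢ Finset.Icc ((ctr i).2 - 1) (ctr i).2).image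
        (fun p => (p.1, p.2, false)) := by
    intro e he
    unfold blk at he
    rw [Finset.mem_filter] at he
    obtain ⟨x, y, b⟩ := e
    obtain ⟨_, h1, h2⟩ := he
    unfold InB at h1 h2
    simp only [Finset.mem_union, Finset.mem_image, Finset.mem_product, Finset.mem_Icc,
      Prod.mk.injEq, Prod.exists]
    cases b
    · right
      simp only [src_mk, tgt_false] at h1 h2
      refine ⟨x, y, ?_, rfl, rfl, rfl⟩
      omega
    · left
      simp only [src_mk, tgt_true] at h1 h2
      refine ⟨x, y, ?_, rfl, rfl, rfl⟩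
      omega
  refine (Finset.card_le_card hsub).trans ((Finset.card_union_le _ _).trans ?_)
  have h1 := Finset.card_image_le (s := Finset.Icc ((ctr i).1 - 1) (ctr i).1 ×ˢ
    Finset.Icc ((ctr i).2 - 1) ((ctr i).2 + 1)) (f := fun p => ((p.1, p.2, true) : Edg))
  have h2 := Finset.card_image_le (s := Finset.Icc ((ctr i).1 - 1) ((ctr i).1 + 1) ×ˢ
    Finset.Icc ((ctr i).2 - 1) (ctr i).2) (f := fun p => ((p.1, p.2, false) : Edg))
  rw [Finset.card_product, Int.card_Icc, Int.card_Icc] at h1 h2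
  have e1 : ((ctr i).1 + 1 - ((ctr i).1 - 1)).toNat = 2 := by omega
  have e2 : ((ctr i).2 + 1 + 1 - ((ctr i).2 - 1)).toNat = 3 := by omega
  have e3 : ((ctr i).1 + 1 + 1 - ((ctr i).1 - 1)).toNat = 3 := by omega
  have e4 : ((ctr i).2 + 1 - ((ctr i).2 - 1)).toNat = 2 := by omega
  rw [e1, e2] at h1
  rw [e3, e4] at h2
  omega

theorem mem_idx {m n : ℕ} {i : ℕ × ℕ} : i ∈ idx m n ↔ 3 * i.1 + 1 ≤ m ∧ 3 * i.2 + 1 ≤ n := by
  unfold idx
  rw [Finset.mem_product, Finset.mem_range, Finset.mem_range]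
  omega

/-- The neighbours of the centre are connected inside the block without the centre. -/
theorem ring {m n : ℕ} {i : ℕ × ℕ} (hi : i ∈ idx m n) {e : Edg} (he : e ∈ star m n i) :
    (src e = ctr i ∧ Reach (↑(blk m n i \ star m n i) ∪ wired m n)
      ((ctr i).1 - 1, (ctr i).2 - 1) (tgt e)) ∨
    (tgt e = ctr i ∧ Reach (↑(blk m n i \ star m n i) ∪ wired m n)
      ((ctr i).1 - 1, (ctr i).2 - 1) (src e)) := by
  rw [mem_idx] at hi
  have hx := ctr_fst i
  have hy := ctr_snd i
  obtain ⟨x, hx'⟩ : ∃ x, x = (ctr i).1 := ⟨_, rfl⟩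
  obtain ⟨y, hy'⟩ : ∃ y, y = (ctr i).2 := ⟨_, rfl⟩
  have hc : ctr i = (x, y) := Prod.ext hx'.symm hy'.symm
  -- edges of the ring
  have hmem : ∀ a b : ℤ, ∀ k : Bool, (a, b, k) ∈ (↑(edges m n) ∪ wired m n : Set Edg) →
      InB i (src (a, b, k)) → InB i (tgt (a, b, k)) → src (a, b, k) ≠ (x, y) →
      tgt (a, b, k) ≠ (x, y) →
      (a, b, k) ∈ (↑(blk m n i \ star m n i) ∪ wired m n : Set Edg) := by
    intro a b k h1 h2 h3 h4 h5
    rcases h1 with h1 | h1
    · left
      rw [Finset.mem_coe] at h1 ⊢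
      rw [Finset.mem_sdiff]
      constructor
      · unfold blk
        rw [Finset.mem_filter]
        exact ⟨h1, h2, h3⟩
      · unfold star
        rw [Finset.mem_filter, hc]
        rintro ⟨_, h | h⟩
        · exact h4 h
        · exact h5 h
    · right
      exact h1
  have hr1 : Reach (↑(blk m n i \ star m n i) ∪ wired m n) (x - 1, y - 1) (x - 1, y) := by
    apply Adj.reach
    refine ⟨(x - 1, y - 1, false), hmem _ _ _ (step_down (by omega) (by omega) (by omega) (by omega))
      ?_ ?_ ?_ ?_, Or.inl ⟨rfl, by simp⟩⟩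
    · unfold InB; simp only [src_mk]; omega
    · unfold InB; simp only [tgt_false]; omega
    · simp
    · simp
  have hr2 : Reach (↑(blk m n i \ star m n i) ∪ wired m n) (x - 1, y - 1) (x, y - 1) := by
    apply Adj.reach
    refine ⟨(x - 1, y - 1, true), hmem _ _ _ (step_left (by omega) (by omega) (by omega) (by omega))
      ?_ ?_ ?_ ?_, Or.inl ⟨rfl, by simp⟩⟩
    · unfold InB; simp only [src_mk]; omega
    · unfold InB; simp only [tgt_true]; omega
    · simp
    · simp
  unfold star at he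
  rw [Finset.mem_filter] at he
  obtain ⟨hE, hor⟩ := he
  have hends := ends_edges m n e hE
  obtain ⟨a, b, k⟩ := e
  rw [hc] at hor ⊢
  rw [mem_edges] at hE
  rcases hor with h | h
  · left
    refine ⟨h, ?_⟩
    rw [src_mk, Prod.mk.injEq] at h
    obtain ⟨rfl, rfl⟩ := h
    cases k
    · -- up
      simp only [Bool.false_eq_true, false_and, false_or, true_and] at hE
      rw [tgt_false]
      refine (hr1.trans (Adj.reach ⟨(a - 1, b, false), hmem _ _ _ (step_down (by omega) (by omega)
        (by omega) (by omega)) ?_ ?_ ?_ ?_, Or.inl ⟨rfl, rfl⟩⟩)).trans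
        (Adj.reach ⟨(a - 1, b + 1, true), hmem _ _ _ (step_left (by omega) (by omega)
        (by omega) (by omega)) ?_ ?_ ?_ ?_, Or.inl ⟨rfl, by simp⟩⟩)
      · unfold InB; simp only [src_mk]; omega
      · unfold InB; simp only [tgt_false]; omega
      · simp
      · simp
      · unfold InB; simp only [src_mk]; omega
      · unfold InB; simp only [tgt_true]; omega
      · simp
      · simp
    · -- right
      simp only [true_and, Bool.true_eq_false, false_and, or_false] at hE
      rw [tgt_true]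
      refine (hr2.trans (Adj.reach ⟨(a, b - 1, true), hmem _ _ _ (step_left (by omega) (by omega)
        (by omega) (by omega)) ?_ ?_ ?_ ?_, Or.inl ⟨rfl, rfl⟩⟩)).trans
        (Adj.reach ⟨(a + 1, b - 1, false), hmem _ _ _ (step_down (by omega) (by omega)
        (by omega) (by omega)) ?_ ?_ ?_ ?_, Or.inl ⟨rfl, by simp⟩⟩)
      · unfold InB; simp only [src_mk]; omega
      · unfold InB; simp only [tgt_true]; omega
      · simp
      · simp
      · unfold InB; simp only [src_mk]; omega
      · unfold InB; simp only [tgt_false]; omega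
      · simp
      · simp
  · right
    refine ⟨h, ?_⟩
    cases k
    · -- down
      rw [tgt_false, Prod.mk.injEq] at h
      obtain ⟨h1, h2⟩ := h
      rw [src_mk, h1, show b = y - 1 by omega]
      exact hr2
    · rw [tgt_true, Prod.mk.injEq] at h
      obtain ⟨h1, h2⟩ := h
      rw [src_mk, h2, show a = x - 1 by omega]
      exact hr1

/-- Every configuration can be changed inside the block so that the centre is isolated, at the
cost of at most one defect. -/
theorem isolate {m n : ℕ} {i : ℕ × ℕ} (hi : i ∈ idx m n) {H K : Finset Edg}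
    (hH : H ⊆ edges m n \ blk m n i) (hK : K ⊆ blk m n i) :
    ∃ K' ⊆ blk m n i \ star m n i, loops m n (H ∪ K') ≤ loops m n (H ∪ K) + 1 ∧
      loops m n (H ∪ K) ≤ loops m n (H ∪ K') + 12 := by
  classical
  have hHe : H ⊆ edges m n := hH.trans Finset.sdiff_subset
  have hKe : K ⊆ edges m n := hK.trans (blk_sub m n i)
  rcases (K ∩ star m n i).eq_empty_or_nonempty with h0 | h0
  · refine ⟨K, ?_, by omega, by omega⟩
    intro e he
    rw [Finset.mem_sdiff]
    refine ⟨hK he, fun hs => ?_⟩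
    have : e ∈ K ∩ star m n i := Finset.mem_inter.mpr ⟨he, hs⟩
    rw [h0] at this
    exact Finset.notMem_empty _ this
  · obtain ⟨Ks, hKs⟩ : ∃ Ks, Ks = K ∩ star m n i := ⟨_, rfl⟩
    obtain ⟨Kr, hKr⟩ : ∃ Kr, Kr = K \ star m n i := ⟨_, rfl⟩
    obtain ⟨Q, hQ⟩ : ∃ Q, Q = (blk m n i \ star m n i) \ Kr := ⟨_, rfl⟩
    have hQe : Q ⊆ edges m n := by
      rw [hQ]
      exact (Finset.sdiff_subset.trans Finset.sdiff_subset).trans (blk_sub m n i)
    have hKse : Ks ⊆ edges m n := by rw [hKs]; exact Finset.inter_subset_left.trans hKe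
    have hKre : Kr ⊆ blk m n i \ star m n i := by
      rw [hKr]; exact Finset.sdiff_subset_sdiff hK subset_rfl
    have hsub : (↑(blk m n i \ star m n i) ∪ wired m n : Set Edg) ⊆
        ↑Q ∪ (↑(H ∪ Kr) ∪ wired m n) := by
      intro e he
      rcases he with he | he
      · rw [Finset.mem_coe] at he
        by_cases hk : e ∈ Kr
        · right; left
          rw [Finset.mem_coe, Finset.mem_union]
          exact Or.inr hk
        · left
          rw [Finset.mem_coe, hQ, Finset.mem_sdiff]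
          exact ⟨he, hk⟩
      · exact Or.inr (Or.inr he)
    obtain ⟨D, hD, h1, h2⟩ := local_step (R := verts m n) (↑(H ∪ Kr) ∪ wired m n) Q Ks
      (ends_sub hQe) (ends_sub hKse) (v := ctr i) (c := ((ctr i).1 - 1, (ctr i).2 - 1))
      (fun e he => by
        rw [hKs] at he
        rcases ring hi (Finset.mem_inter.mp he).2 with ⟨ha, hb⟩ | ⟨ha, hb⟩
        · exact Or.inl ⟨ha, hb.mono hsub⟩
        · exact Or.inr ⟨ha, hb.mono hsub⟩)
    have hDQ : D ⊆ blk m n i \ star m n i := hD.trans (by rw [hQ]; exact Finset.sdiff_subset)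
    refine ⟨Kr ∪ D, Finset.union_subset hKre hDQ, ?_⟩
    have hDe : D ⊆ edges m n := hD.trans hQe
    -- the disjointness and the cardinalities
    have hKsplit : H ∪ K = (H ∪ Kr) ∪ Ks := by
      rw [hKs, hKr, Finset.union_assoc, Finset.sdiff_union_inter]
    have hd1 : Disjoint (H ∪ Kr) Ks := by
      rw [Finset.disjoint_left]
      intro e he1 he2
      rw [hKs, Finset.mem_inter] at he2
      rcases Finset.mem_union.mp he1 with he | he
      · exact (Finset.mem_sdiff.mp (hH he)).2 (hK he2.1)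
      · exact (Finset.mem_sdiff.mp (hKre he)).2 he2.2
    have hd2 : Disjoint (H ∪ Kr) D := by
      rw [Finset.disjoint_left]
      intro e he1 he2
      have he3 := hD he2
      rw [hQ, Finset.mem_sdiff] at he3
      rcases Finset.mem_union.mp he1 with he | he
      · exact (Finset.mem_sdiff.mp (hH he)).2 (Finset.mem_sdiff.mp he3.1).1
      · exact he3.2 he
    have hunion : H ∪ (Kr ∪ D) = (H ∪ Kr) ∪ D := (Finset.union_assoc _ _ _).symm
    have hKD : Ks.card + D.card ≤ 12 := by
      rw [← Finset.card_union_of_disjoint]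
      · refine (Finset.card_le_card ?_).trans (card_blk m n i)
        apply Finset.union_subset
        · rw [hKs]; exact Finset.inter_subset_right.trans (star_sub m n i)
        · exact hDQ.trans Finset.sdiff_subset
      · rw [Finset.disjoint_left]
        intro e he1 he2
        rw [hKs, Finset.mem_inter] at he1
        exact (Finset.mem_sdiff.mp (hDQ he2)).2 he1.2
    have hk1 : 1 ≤ Ks.card := by
      rw [Nat.one_le_iff_ne_zero, hKs]
      exact (Finset.card_pos.mpr h0).ne'
    have he1 := expo (m := m) (n := n) (F := (H ∪ Kr) ∪ Ks)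
      (Finset.union_subset (Finset.union_subset hHe (hKre.trans
        (Finset.sdiff_subset.trans (blk_sub m n i)))) hKse)
    have he2 := expo (m := m) (n := n) (F := (H ∪ Kr) ∪ D)
      (Finset.union_subset (Finset.union_subset hHe (hKre.trans
        (Finset.sdiff_subset.trans (blk_sub m n i)))) hDe)
    rw [Finset.card_union_of_disjoint hd1] at he1
    rw [Finset.card_union_of_disjoint hd2] at he2
    have hc1 : clusters m n ((H ∪ Kr) ∪ Ks) = ncl (verts m n) (↑Ks ∪ (↑(H ∪ Kr) ∪ wired m n)) := by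
      unfold clusters
      congr 1
      rw [Finset.coe_union (H ∪ Kr) Ks, Set.union_comm (↑(H ∪ Kr) : Set Edg) ↑Ks, Set.union_assoc]
    have hc2 : clusters m n ((H ∪ Kr) ∪ D) = ncl (verts m n) (↑D ∪ (↑(H ∪ Kr) ∪ wired m n)) := by
      unfold clusters
      congr 1
      rw [Finset.coe_union (H ∪ Kr) D, Set.union_comm (↑(H ∪ Kr) : Set Edg) ↑D, Set.union_assoc]
    have h3 := ncl_union_ge Ks (ends_sub hKse) (↑(H ∪ Kr) ∪ wired m n)
    have h4 : ncl (verts m n) (↑Ks ∪ (↑(H ∪ Kr) ∪ wired m n)) ≤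
        ncl (verts m n) (↑(H ∪ Kr) ∪ wired m n) := ncl_anti _ Set.subset_union_right
    rw [hKsplit, hunion]
    rw [← hc1] at h2 h3 h4
    rw [← hc2] at h1
    constructor
    · omega
    · omega

end Pool.Agent.Q297.FKL
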